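import Pool.Agent.H28.NB.Main

set_option autoImplicit false

namespace Pool.Agent.H28.NB

open Finset

private theorem ar1 (e s r P Q ex ey : ℕ) (d1 : e + r * ex ≤ (s + r) * P)
    (d2 : e ≤ (s + r) * Q + r * ey) : e ≤ s * P + r * (Q + ey) := by
  rcases Nat.lt_or_ge (Q + ey) P with h | h
  · have h1 : s * Q ≤ s * P := Nat.mul_le_mul_left s (by omega)
    have h2 : (s + r) * Q + r * ey = s * Q + r * (Q + ey) := by ring
    omega
  · have h1 : r * P ≤ r * (Q + ey) := Nat.mul_le_mul_left r h
    have h2 : (s + r) * P = s * P + r * P := by ring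
    omega

private theorem ar2 (e s r P Q G ex ey : ℕ) (hG : G + ex = P) (hex : ex ≤ 1) (hey : ey ≤ 1)
    (d1 : e + r * ex ≤ (s + r) * P) (d2 : e ≤ (s + r) * Q + r * ey)
    (d3 : ex = 1 → ey = 1 → e ≤ (s + r) * ((P + Q) / 2)) : e ≤ s * Q + r * G := by
  rcases Nat.lt_or_ge G (Q + ey) with h | h
  · rcases Nat.lt_or_ge Q P with h' | h'
    · have h1 : ex = 1 := by omega
      have h2 : ey = 1 := by omega
      have h3 : G = Q := by omega
      have h4 : (P + Q) / 2 = Q := by omega
      have h5 := d3 h1 h2
      rw [h4] at h5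
      rw [h3]
      have h6 : (s + r) * Q = s * Q + r * Q := by ring
      omega
    · have h1 : (s + r) * P = s * P + (r * G + r * ex) := by
        rw [← hG]; ring
      have h2 : s * P ≤ s * Q := Nat.mul_le_mul_left s h'
      omega
  · have h1 : (s + r) * Q + r * ey = s * Q + r * (Q + ey) := by ring
    have h2 : r * (Q + ey) ≤ r * G := Nat.mul_le_mul_left r h
    omega

theorem main {V : Type*} [Fintype V] [DecidableEq V] (m : V → V → ℕ) (f : V → ℕ)
    (hs : ∀ i j, m i j = m j i) (h0 : ∀ i, m i i = 0) (v : V) (A : Finset V) (hv : v ∉ A)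
    (hb : ∀ i j, i ≠ v → j ≠ v → m i j ≠ 0 → (i ∈ A ↔ j ∉ A)) (k : ℕ)
    (hX : ∀ X : Finset V, (∑ i ∈ X, ∑ j ∈ X, m i j) ≤ 2 * (k * ((∑ i ∈ X, f i) / 2)))
    (hdeg : ∀ u, ∑ w, m u w ≤ k * f u) :
    ∃ c : V → V → Fin k → ℕ, (∀ i j a, c i j a = c j i a) ∧ (∀ i j, ∑ a, c i j a = m i j) ∧
      (∀ u a, ∑ w, c u w a ≤ f u) := by
  have hadd := bip_add hs h0 hv hb
  set α := ∑ a, bip m A v a v with hα
  set β := ∑ b, bip m A v v b with hβ
  have hαβ : α + β ≤ k * f v := by
    have h1 : ∑ w, m v w = β + α := by
      rw [hα, hβ, ← sum_add_distrib]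
      exact sum_congr rfl fun w _ => (hadd v w).symm
    have := hdeg v
    omega
  set q := α / k with hq
  set r := α % k with hr
  have hqr : k * q + r = α := Nat.div_add_mod α k
  have hrk : r ≤ k := by
    rcases Nat.eq_zero_or_pos k with hk | hk
    · have h1 : α = 0 := by
        rw [hk, zero_mul] at hαβ
        omega
      have h2 : r ≤ α := by omega
      omega
    · exact (Nat.mod_lt α hk).le
  obtain ⟨s, hsr⟩ : ∃ s, s + r = k := ⟨k - r, by omega⟩
  have hqf : q ≤ f v := by
    rcases Nat.eq_zero_or_pos k with hk | hk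
    · rw [hq, hk, Nat.div_zero]
      exact Nat.zero_le _
    · by_contra hcon
      have h1 : k * (f v + 1) ≤ k * q := Nat.mul_le_mul_left k (by omega)
      have h2 : k * (f v + 1) = k * f v + k := by ring
      omega
  have hqf' : 0 < r → q + 1 ≤ f v := by
    intro hr0
    by_contra hcon
    have h1 : k * f v ≤ k * q := Nat.mul_le_mul_left k (by omega)
    omega
  -- capacities
  let gI : V → ℕ := fun a => if a = v then f v - (q + 1) else f a
  let hI : V → ℕ := fun b => if b = v then q + 1 else f b
  let gII : V → ℕ := fun a => if a = v then f v - q else f a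
  let hII : V → ℕ := fun b => if b = v then q else f b
  -- degree bounds
  have hrowm : ∀ a, ∑ b, bip m A v a b ≤ k * f a := fun a =>
    (sum_le_sum fun b _ => (Nat.le_add_right _ _).trans (hadd a b).le).trans (hdeg a)
  have hcolm : ∀ b, ∑ a, bip m A v a b ≤ k * f b := fun b =>
    (sum_le_sum fun a _ => (Nat.le_add_left _ _).trans (hadd b a).le).trans (hdeg b)
  have hD1 : ∀ a, ∑ b, bip m A v a b + (if a = v then r else 0) ≤ k * gII a := by
    intro a
    show _ ≤ k * (if a = v then f v - q else f a)
    by_cases hav : a = v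
    · subst hav
      rw [if_pos rfl, if_pos rfl, Nat.mul_sub]
      have h1 : k * q ≤ k * f a := Nat.mul_le_mul_left k hqf
      show β + r ≤ _
      omega
    · rw [if_neg hav, if_neg hav, add_zero]
      exact hrowm a
  have hD2 : ∀ b, ∑ a, bip m A v a b ≤ k * hII b + (if b = v then r else 0) := by
    intro b
    show _ ≤ k * (if b = v then q else f b) + _
    by_cases hbv : b = v
    · subst hbv
      rw [if_pos rfl, if_pos rfl]
      show α ≤ _
      omega
    · rw [if_neg hbv, if_neg hbv, add_zero]
      exact hcolm b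
  have hite : ∀ (X : Finset V) (t : ℕ), ∑ a ∈ X, (if a = v then t else 0) =
      t * (if v ∈ X then 1 else 0) := by
    intro X t
    rw [sum_ite_eq']
    by_cases h : v ∈ X
    · rw [if_pos h, if_pos h, mul_one]
    · rw [if_neg h, if_neg h, mul_zero]
  have hE1 : ∀ (X Y : Finset V), ∑ a ∈ X, ∑ b ∈ Y, bip m A v a b + r * (if v ∈ X then 1 else 0) ≤
      (s + r) * ∑ a ∈ X, gII a := by
    intro X Y
    rw [← hite X r, ← sum_add_distrib, hsr, mul_sum]
    refine sum_le_sum fun a _ => ?_
    have h1 : ∑ b ∈ Y, bip m A v a b ≤ ∑ b, bip m A v a b :=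
      sum_le_sum_of_subset (subset_univ Y)
    have h2 := hD1 a
    omega
  have hE2 : ∀ (X Y : Finset V), ∑ a ∈ X, ∑ b ∈ Y, bip m A v a b ≤
      (s + r) * ∑ b ∈ Y, hII b + r * (if v ∈ Y then 1 else 0) := by
    intro X Y
    rw [← hite Y r, hsr, mul_sum, ← sum_add_distrib, sum_comm]
    refine sum_le_sum fun b _ => ?_
    have h1 : ∑ a ∈ X, bip m A v a b ≤ ∑ a, bip m A v a b :=
      sum_le_sum_of_subset (subset_univ X)
    have h2 := hD2 b
    omega
  have hhI : ∀ Y : Finset V, ∑ b ∈ Y, hI b = ∑ b ∈ Y, hII b + (if v ∈ Y then 1 else 0) := by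
    intro Y
    have h1 := hite Y 1
    rw [one_mul] at h1
    rw [← h1, ← sum_add_distrib]
    refine sum_congr rfl fun b _ => ?_
    show (if b = v then q + 1 else f b) = (if b = v then q else f b) + _
    by_cases hbv : b = v
    · rw [if_pos hbv, if_pos hbv, if_pos hbv]
    · rw [if_neg hbv, if_neg hbv, if_neg hbv, add_zero]
  have hgI : 0 < r → ∀ X : Finset V, ∑ a ∈ X, gI a + (if v ∈ X then 1 else 0) =
      ∑ a ∈ X, gII a := by
    intro hr0 X
    have h1 := hite X 1
    rw [one_mul] at h1
    rw [← h1, ← sum_add_distrib]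
    refine sum_congr rfl fun a _ => ?_
    show (if a = v then f v - (q + 1) else f a) + _ = (if a = v then f v - q else f a)
    have := hqf' hr0
    by_cases hav : a = v
    · rw [if_pos hav, if_pos hav, if_pos hav]
      omega
    · rw [if_neg hav, if_neg hav, if_neg hav, add_zero]
  have hle1 : ∀ X : Finset V, (if v ∈ X then 1 else 0) ≤ 1 := by
    intro X
    by_cases h : v ∈ X
    · rw [if_pos h]
    · rw [if_neg h]; exact Nat.zero_le _
  obtain ⟨x, hx, x1, x2, x3, x4⟩ := split_of_cuts (bip m A v) gI gII hI hII r s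
    (by
      intro a
      show _ ≤ r * (if a = v then f v - (q + 1) else f a) + s * (if a = v then f v - q else f a)
      by_cases hav : a = v
      · subst hav
        rw [if_pos rfl, if_pos rfl]
        show β ≤ _
        rcases Nat.eq_zero_or_pos r with hr0 | hr0
        · rw [hr0, zero_mul, zero_add]
          have h1 : s = k := by omega
          rw [h1, Nat.mul_sub]
          have h2 : k * q ≤ k * f a := Nat.mul_le_mul_left k hqf
          omega
        · obtain ⟨t, ht⟩ : ∃ t, f a = q + 1 + t := ⟨f a - (q + 1), by have := hqf' hr0; omega⟩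
          have e1 : f a - (q + 1) = t := by omega
          have e2 : f a - q = t + 1 := by omega
          rw [e1, e2]
          rw [ht, ← hsr] at hαβ
          rw [← hsr] at hqr
          have e3 : (s + r) * (q + 1 + t) = (s + r) * q + r * t + s * (t + 1) + r := by ring
          omega
      · rw [if_neg hav, if_neg hav, ← add_mul, add_comm r s, hsr]
        exact hrowm a)
    (by
      intro b
      show _ ≤ r * (if b = v then q + 1 else f b) + s * (if b = v then q else f b)
      by_cases hbv : b = v
      · subst hbv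
        rw [if_pos rfl, if_pos rfl]
        show α ≤ _
        rw [← hsr] at hqr
        have e3 : r * (q + 1) + s * q = (s + r) * q + r := by ring
        omega
      · rw [if_neg hbv, if_neg hbv, ← add_mul, add_comm r s, hsr]
        exact hcolm b)
    (by
      intro X Y
      rw [hhI Y]
      exact ar1 _ s r _ _ _ _ (hE1 X Y) (hE2 X Y))
    (by
      intro X Y
      rcases Nat.eq_zero_or_pos r with hr0 | hr0
      · have h1 := hE2 X Y
        rw [hr0] at h1 ⊢
        simpa using h1
      · refine ar2 _ s r _ _ _ _ _ (hgI hr0 X) (hle1 X) (hle1 Y) (hE1 X Y) (hE2 X Y) ?_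
        intro hX1 hY1
        have hvX : v ∈ X := by
          by_contra h
          rw [if_neg h] at hX1
          omega
        have hvY : v ∈ Y := by
          by_contra h
          rw [if_neg h] at hY1
          omega
        rw [hsr]
        exact blossom hs h0 hv hb f k hX gII hII (fun a ha => if_neg ha) (fun b hb' => if_neg hb')
          (by
            show f v ≤ (if v = v then f v - q else f v) + (if v = v then q else f v)
            rw [if_pos rfl, if_pos rfl]
            omega) X Y hvX hvY)
  exact combine hs h0 hv hb f r s x hx gI hI gII hII (fun a ha => if_neg ha)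
    (fun b hb' => if_neg hb') (fun a ha => if_neg ha) (fun b hb' => if_neg hb')
    (by
      intro hr0
      show (if v = v then f v - (q + 1) else f v) + (if v = v then q + 1 else f v) ≤ f v
      have := hqf' hr0
      rw [if_pos rfl, if_pos rfl]
      omega)
    (by
      show (if v = v then f v - q else f v) + (if v = v then q else f v) ≤ f v
      rw [if_pos rfl, if_pos rfl]
      omega) x1 x2 x3 x4 k (by omega)

end Pool.Agent.H28.NB
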