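import Pool.Agent.H28.NB.TriE

set_option autoImplicit false

namespace Pool.Agent.H28.NB

open Finset

theorem mainTri {V : Type*} [Fintype V] [DecidableEq V] (m : V → V → ℕ) (f : V → ℕ)
    (hs : ∀ i j, m i j = m j i) (h0 : ∀ i, m i i = 0) (A : Finset V)
    (p : Fin 3 → V) (hp : ∀ i, p i ∈ A) (hinj : Function.Injective p)
    (hAA : ∀ a b, a ∈ A → b ∈ A → m a b ≠ 0 → ∃ i j, a = p i ∧ b = p j)
    (hBB : ∀ a b, a ∉ A → b ∉ A → m a b = 0) (k : ℕ)
    (hX : ∀ X : Finset V, (∑ i ∈ X, ∑ j ∈ X, m i j) ≤ 2 * (k * ((∑ i ∈ X, f i) / 2)))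
    (hdeg : ∀ u, ∑ w, m u w ≤ k * f u) :
    ∃ c : V → V → Fin k → ℕ, (∀ i j a, c i j a = c j i a) ∧ (∀ i j, ∑ a, c i j a = m i j) ∧
      (∀ u a, ∑ w, c u w a ≤ f u) := by
  have hadd := madd hs h0 p hp hinj hAA hBB
  set x : Fin 3 → ℕ := fun i => m (p (i + 1)) (p (i + 2)) with hx
  set M := bp m A with hM
  set σ := ∑ i, x i with hσ
  have hσ3 : σ = x 0 + x 1 + x 2 := by rw [hσ, Fin.sum_univ_three]
  set τ := σ / k with hτ
  set r := σ % k with hr
  have hqr : k * τ + r = σ := Nat.div_add_mod σ k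
  have hrk : r ≤ k := by
    rcases Nat.eq_zero_or_pos k with hk | hk
    · have h1 : ∀ a b, m a b = 0 := by
        intro a b
        have h2 := hdeg a
        rw [hk, zero_mul] at h2
        have h3 : m a b ≤ ∑ w, m a w :=
          single_le_sum (f := fun w => m a w) (fun _ _ => Nat.zero_le _) (mem_univ b)
        omega
      have h2 : σ = 0 := by
        rw [hσ]
        exact sum_eq_zero fun i _ => h1 _ _
      omega
    · exact (Nat.mod_lt σ hk).le
  obtain ⟨s, hsr⟩ : ∃ s, s + r = k := ⟨k - r, by omega⟩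
  -- degree bounds
  have hrowS : ∀ a, ∑ b, tri M p x (some a) b ≤ k * f a := by
    intro a
    rw [tri_row_some]
    have h1 : ∑ b, m a b = ∑ b, M a b + ∑ b, M b a + ∑ b, T3 p x a b := by
      rw [← sum_add_distrib, ← sum_add_distrib]
      exact sum_congr rfl fun b _ => (hadd a b).symm
    rw [T3_row] at h1
    have h2 := hdeg a
    omega
  have hrowN : ∑ b, tri M p x none b = σ := tri_row_none M p x
  have hcolL : ∀ b, ∑ a, tri M p x a (Sum.inl b) ≤ k * f b := by
    intro b
    rw [tri_col_inl]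
    have h1 : ∑ a, m b a = ∑ a, M b a + ∑ a, M a b + ∑ a, T3 p x b a := by
      rw [← sum_add_distrib, ← sum_add_distrib]
      exact sum_congr rfl fun a _ => (hadd b a).symm
    have h2 := hdeg b
    omega
  have hcolR : ∀ i, ∑ a, tri M p x a (Sum.inr i) = σ := tri_col_inr M p x
  -- capacities
  let gI : Option V → ℕ := fun a => match a with | some a => f a | none => τ + 1
  let gII : Option V → ℕ := fun a => match a with | some a => f a | none => τ
  let hI : V ⊕ Fin 3 → ℕ := fun b => match b with | Sum.inl b => f b | Sum.inr _ => τ + 1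
  let hII : V ⊕ Fin 3 → ℕ := fun b => match b with | Sum.inl b => f b | Sum.inr _ => τ
  have hrow : ∀ a, ∑ b, tri M p x a b ≤ r * gI a + s * gII a := by
    rintro (_ | a)
    · rw [hrowN]
      show σ ≤ r * (τ + 1) + s * τ
      have : r * (τ + 1) + s * τ = (s + r) * τ + r := by ring
      rw [this, hsr]
      omega
    · show _ ≤ r * f a + s * f a
      rw [← add_mul, add_comm r s, hsr]
      exact hrowS a
  have hcol : ∀ b, ∑ a, tri M p x a b ≤ r * hI b + s * hII b := by
    rintro (b | i)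
    · show _ ≤ r * f b + s * f b
      rw [← add_mul, add_comm r s, hsr]
      exact hcolL b
    · rw [hcolR]
      show σ ≤ r * (τ + 1) + s * τ
      have : r * (τ + 1) + s * τ = (s + r) * τ + r := by ring
      rw [this, hsr]
      omega
  have hcuts : ∀ (X : Finset (Option V)) (Y : Finset (V ⊕ Fin 3)),
      ∑ a ∈ X, ∑ b ∈ Y, tri M p x a b ≤ s * ∑ a ∈ X, gII a + r * ∑ b ∈ Y, hI b ∧
      ∑ a ∈ X, ∑ b ∈ Y, tri M p x a b ≤ s * ∑ b ∈ Y, hII b + r * ∑ a ∈ X, gI a := by
    intro X Y
    have c0 := cut_eq M p x X Y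
    set S := univ.filter (fun a : V => some a ∈ X) with hS
    set T := univ.filter (fun b : V => (Sum.inl b : V ⊕ Fin 3) ∈ Y) with hT
    set e := ∑ a ∈ X, ∑ b ∈ Y, tri M p x a b with he
    set e0 := ∑ a ∈ S, ∑ b ∈ T, M a b with he0
    set w := ind (none ∈ X) with hw
    set j0 := ind ((Sum.inr 0 : V ⊕ Fin 3) ∈ Y) with hj0
    set j1 := ind ((Sum.inr 1 : V ⊕ Fin 3) ∈ Y) with hj1
    set j2 := ind ((Sum.inr 2 : V ⊕ Fin 3) ∈ Y) with hj2
    have g1 : ∑ a ∈ X, gII a = ∑ a ∈ S, f a + w * τ := sum_option_mem X gII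
    have g2 : ∑ a ∈ X, gI a = ∑ a ∈ S, f a + w * τ + w := by
      have := sum_option_mem X gI
      rw [this]
      show ∑ a ∈ S, f a + w * (τ + 1) = _
      ring
    have g3 : ∑ b ∈ Y, hII b = ∑ b ∈ T, f b + (j0 + j1 + j2) * τ := by
      have := sum_sum_mem Y hII
      rw [this]
      show ∑ b ∈ T, f b + (j0 * τ + j1 * τ + j2 * τ) = _
      ring
    have g4 : ∑ b ∈ Y, hI b = ∑ b ∈ T, f b + (j0 + j1 + j2) * τ + (j0 + j1 + j2) := by
      have := sum_sum_mem Y hI
      rw [this]
      show ∑ b ∈ T, f b + (j0 * (τ + 1) + j1 * (τ + 1) + j2 * (τ + 1)) = _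
      ring
    have d1 : e ≤ k * (∑ a ∈ S, f a + w * τ) + w * r := by
      have h1 : e ≤ ∑ a ∈ X, ∑ b, tri M p x a b := cutRow _ _ (fun _ => le_rfl) X Y
      rw [sum_option_mem X (fun a => ∑ b, tri M p x a b)] at h1
      have h2 : ∑ a ∈ S, ∑ b, tri M p x (some a) b ≤ k * ∑ a ∈ S, f a := by
        rw [mul_sum]
        exact sum_le_sum fun a _ => hrowS a
      have h3 : w * ∑ b, tri M p x none b = k * (w * τ) + w * r := by
        rw [hrowN, ← hqr]; ring
      have h4 : k * (∑ a ∈ S, f a + w * τ) = k * ∑ a ∈ S, f a + k * (w * τ) := mul_add _ _ _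
      have h5 : e ≤ ∑ a ∈ S, ∑ b, tri M p x (some a) b + w * ∑ b, tri M p x none b := h1
      omega
    have d2 : e ≤ k * (∑ b ∈ T, f b + (j0 + j1 + j2) * τ) + (j0 + j1 + j2) * r := by
      have h1 : e ≤ ∑ b ∈ Y, ∑ a, tri M p x a b := cutCol _ _ (fun _ => le_rfl) X Y
      rw [sum_sum_mem Y (fun b => ∑ a, tri M p x a b)] at h1
      simp only [hcolR] at h1
      have h2 : ∑ b ∈ T, ∑ a, tri M p x a (Sum.inl b) ≤ k * ∑ b ∈ T, f b := by
        rw [mul_sum]
        exact sum_le_sum fun b _ => hcolL b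
      have h3 : j0 * σ + j1 * σ + j2 * σ = k * ((j0 + j1 + j2) * τ) + (j0 + j1 + j2) * r := by
        rw [← hqr]; ring
      have h4 : k * (∑ b ∈ T, f b + (j0 + j1 + j2) * τ) =
          k * ∑ b ∈ T, f b + k * ((j0 + j1 + j2) * τ) := mul_add _ _ _
      have h5 : e ≤ ∑ b ∈ T, ∑ a, tri M p x a (Sum.inl b) + (j0 * σ + j1 * σ + j2 * σ) := h1
      omega
    have d0 : e0 ≤ k * ∑ b ∈ T, f b := by
      have h1 : e0 ≤ ∑ b ∈ T, k * f b := cutCol M _ (fun b => by
        have := hcolL b
        rw [tri_col_inl] at this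
        exact this) S T
      rw [← mul_sum] at h1
      exact h1
    have d3 := blossomT hs h0 p hp hinj hAA hBB f k hX S T
    constructor
    · rw [g1, g4]
      exact cut_arith1 e s r k _ _ w (j0 + j1 + j2) hsr (ind_le _) d1 d2
    · rw [g3, g2]
      exact cut_arith e e0 _ s r k τ _ _ w j0 j1 j2 (ind (p 0 ∈ S)) (ind (p 1 ∈ S))
        (ind (p 2 ∈ S)) (x 0) (x 1) (x 2) hsr (by rw [← hσ3]; exact hqr.symm) (ind_le _)
        (ind_le _) (ind_le _) (ind_le _) (ind_le _) (ind_le _) (ind_le _) c0 rfl d1 d2 d0 d3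
  obtain ⟨y, hy, y1, y2, y3, y4⟩ := split_of_cuts (tri M p x) gI gII hI hII r s hrow hcol
    (fun X Y => (hcuts X Y).1) (fun X Y => (hcuts X Y).2)
  have hM1 : ∀ a b, b ∈ A → M a b = 0 := by
    intro a b hb
    rw [hM]
    unfold bp
    rw [if_neg]
    exact fun h => h.2 hb
  have hM2 : ∀ a b, a ∉ A → M a b = 0 := by
    intro a b ha
    rw [hM]
    unfold bp
    rw [if_neg]
    exact fun h => ha h.1
  have hkσ : r * (τ + 1) + s * τ = σ := by
    have : r * (τ + 1) + s * τ = (s + r) * τ + r := by ring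
    rw [this, hsr]
    exact hqr
  have rowsplit : ∑ b, y none b + ∑ b, (tri M p x none b - y none b) = σ := by
    rw [← sum_add_distrib, ← hrowN]
    exact sum_congr rfl fun b _ => Nat.add_sub_of_le (hy none b)
  have colsplit : ∀ i, ∑ a, y a (Sum.inr i) + ∑ a, (tri M p x a (Sum.inr i) - y a (Sum.inr i)) =
      σ := by
    intro i
    rw [← sum_add_distrib, ← hcolR i]
    exact sum_congr rfl fun a _ => Nat.add_sub_of_le (hy a (Sum.inr i))
  have y1n : ∑ b, y none b ≤ r * (τ + 1) := y1 none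
  have y3n : ∑ b, (tri M p x none b - y none b) ≤ s * τ := y3 none
  have y2n : ∀ i, ∑ a, y a (Sum.inr i) ≤ r * (τ + 1) := fun i => y2 (Sum.inr i)
  have y4n : ∀ i, ∑ a, (tri M p x a (Sum.inr i) - y a (Sum.inr i)) ≤ s * τ :=
    fun i => y4 (Sum.inr i)
  obtain ⟨C, C1, C2, C3⟩ := part hM1 hM2 p hp x f r (τ + 1) y hy (fun a => y1 (some a))
    (by omega) (fun b => y2 (Sum.inl b))
    (fun i => by have := colsplit i; have := y2n i; have := y4n i; omega)
  obtain ⟨D, D1, D2, D3⟩ := part hM1 hM2 p hp x f s τ (fun a b => tri M p x a b - y a b)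
    (fun a b => Nat.sub_le _ _) (fun a => y3 (some a))
    (by
      show ∑ b, (tri M p x none b - y none b) = s * τ
      omega) (fun b => y4 (Sum.inl b))
    (fun i => by
      show ∑ a, (tri M p x a (Sum.inr i) - y a (Sum.inr i)) = s * τ
      have := colsplit i; have := y2n i; have := y4n i; omega)
  have hkrs : r + s = k := by omega
  have fin : ∀ k' : ℕ, r + s = k' →
      ∃ c : V → V → Fin k' → ℕ, (∀ i j a, c i j a = c j i a) ∧ (∀ i j, ∑ a, c i j a = m i j) ∧
      (∀ u a, ∑ w, c u w a ≤ f u) := by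
    rintro k' rfl
    refine ⟨fun i j a => Fin.append C D a i j, fun i j a => ?_, fun i j => ?_, fun u a => ?_⟩
    · refine Fin.addCases (fun c => ?_) (fun c => ?_) a
      · simp only [Fin.append_left]
        exact C1 c i j
      · simp only [Fin.append_right]
        exact D1 c i j
    · rw [Fin.sum_univ_add]
      simp only [Fin.append_left, Fin.append_right]
      rw [C2, D2, ← hadd i j]
      have e1 := hy (some i) (Sum.inl j)
      have e2 := hy (some j) (Sum.inl i)
      have e3 : tri M p x (some i) (Sum.inl j) = M i j := rfl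
      have e4 : tri M p x (some j) (Sum.inl i) = M j i := rfl
      have e5 : T3 p (fun l => y none (Sum.inr l)) i j +
          T3 p (fun l => tri M p x none (Sum.inr l) - y none (Sum.inr l)) i j = T3 p x i j := by
        rw [T3_add]
        congr 1
        funext l
        exact Nat.add_sub_of_le (hy none (Sum.inr l))
      rw [← e5]
      omega
    · refine Fin.addCases (fun c => ?_) (fun c => ?_) a
      · simp only [Fin.append_left]
        exact C3 c u
      · simp only [Fin.append_right]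
        exact D3 c u
  exact fin k hkrs

end Pool.Agent.H28.NB
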