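import Pool.Agent.H28.NB.Final
import Pool.Agent.H28.NB.TriF
import Pool.Agent.PStar.BT.Cls

set_option autoImplicit false

namespace Pool.Agent.H28.NB

open Finset

private theorem star_case {V : Type*} [Fintype V] [DecidableEq V] (m : V → V → ℕ) (f : V → ℕ)
    (hs : ∀ i j, m i j = m j i) (h0 : ∀ i, m i i = 0) (A : Finset V) (k : ℕ)
    (hX : ∀ X : Finset V, (∑ i ∈ X, ∑ j ∈ X, m i j) ≤ 2 * (k * ((∑ i ∈ X, f i) / 2)))
    (hdeg : ∀ u, ∑ w, m u w ≤ k * f u) (v : V)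
    (hv : ∀ a b, m a b ≠ 0 → (a ∈ A ↔ b ∈ A) → a = v ∨ b = v) :
    ∃ c : V → V → Fin k → ℕ, (∀ i j a, c i j a = c j i a) ∧ (∀ i j, ∑ a, c i j a = m i j) ∧
      (∀ u a, ∑ w, c u w a ≤ f u) := by
  refine main m f hs h0 v (A.erase v) (notMem_erase v A) ?_ k hX hdeg
  intro i j hi hj hij
  have h : ¬ (i ∈ A ↔ j ∈ A) := by
    intro h
    rcases hv i j hij h with h | h
    · exact hi h
    · exact hj h
  rw [mem_erase, mem_erase]
  by_cases h1 : i ∈ A <;> by_cases h2 : j ∈ A <;> simp [h1, h2, hi, hj] at h ⊢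

private theorem tri_case {V : Type*} [Fintype V] [DecidableEq V] (m : V → V → ℕ) (f : V → ℕ)
    (hs : ∀ i j, m i j = m j i) (h0 : ∀ i, m i i = 0) (A : Finset V) (k : ℕ)
    (hX : ∀ X : Finset V, (∑ i ∈ X, ∑ j ∈ X, m i j) ≤ 2 * (k * ((∑ i ∈ X, f i) / 2)))
    (hdeg : ∀ u, ∑ w, m u w ≤ k * f u) (a1 a2 a3 : V) (h12 : a1 ≠ a2) (h13 : a1 ≠ a3)
    (h23 : a2 ≠ a3) (h1 : a1 ∈ A) (h2 : a2 ∈ A) (h3 : a3 ∈ A)
    (hv : ∀ a b, m a b ≠ 0 → (a ∈ A ↔ b ∈ A) →
      (a = a1 ∨ a = a2 ∨ a = a3) ∧ (b = a1 ∨ b = a2 ∨ b = a3)) :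
    ∃ c : V → V → Fin k → ℕ, (∀ i j a, c i j a = c j i a) ∧ (∀ i j, ∑ a, c i j a = m i j) ∧
      (∀ u a, ∑ w, c u w a ≤ f u) := by
  have hex : ∀ a, (a = a1 ∨ a = a2 ∨ a = a3) → ∃ i : Fin 3, a = ![a1, a2, a3] i := by
    rintro a (h | h | h)
    · exact ⟨0, h⟩
    · exact ⟨1, h⟩
    · exact ⟨2, h⟩
  have hp : ∀ i : Fin 3, ![a1, a2, a3] i ∈ A := by
    intro i
    fin_cases i
    · exact h1
    · exact h2
    · exact h3
  refine mainTri m f hs h0 A ![a1, a2, a3] hp ?_ ?_ ?_ k hX hdeg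
  · intro i j hij
    fin_cases i <;> fin_cases j <;> first
      | rfl
      | exact absurd hij h12
      | exact absurd hij h13
      | exact absurd hij h23
      | exact absurd hij.symm h12
      | exact absurd hij.symm h13
      | exact absurd hij.symm h23
  · intro a b ha hb hab
    obtain ⟨c1, c2⟩ := hv a b hab ⟨fun _ => hb, fun _ => ha⟩
    obtain ⟨i, hi⟩ := hex a c1
    obtain ⟨j, hj⟩ := hex b c2
    exact ⟨i, j, hi, hj⟩
  · intro a b ha hb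
    by_contra hab
    obtain ⟨c1, -⟩ := hv a b hab ⟨fun h => absurd h ha, fun h => absurd h hb⟩
    obtain ⟨i, hi⟩ := hex a c1
    exact ha (hi ▸ hp i)

/-- all edges inside the sides `A` and `V - A` are pairwise adjacent -/
theorem mainAdj {V : Type*} [Fintype V] [DecidableEq V] (m : V → V → ℕ) (f : V → ℕ)
    (hs : ∀ i j, m i j = m j i) (h0 : ∀ i, m i i = 0) (A : Finset V)
    (hadj : ∀ i j i' j', m i j ≠ 0 → m i' j' ≠ 0 → (i ∈ A ↔ j ∈ A) → (i' ∈ A ↔ j' ∈ A) →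
      i = i' ∨ i = j' ∨ j = i' ∨ j = j') (k : ℕ)
    (hX : ∀ X : Finset V, (∑ i ∈ X, ∑ j ∈ X, m i j) ≤ 2 * (k * ((∑ i ∈ X, f i) / 2)))
    (hdeg : ∀ u, ∑ w, m u w ≤ k * f u) :
    ∃ c : V → V → Fin k → ℕ, (∀ i j a, c i j a = c j i a) ∧ (∀ i j, ∑ a, c i j a = m i j) ∧
      (∀ u a, ∑ w, c u w a ≤ f u) := by
  rcases PStar.star_or_tri (fun a b => m a b ≠ 0 ∧ (a ∈ A ↔ b ∈ A))
    (fun a b h => ⟨by rw [hs]; exact h.1, h.2.symm⟩) (fun a h => h.1 (h0 a))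
    (fun a b c d h h' => hadj a b c d h.1 h'.1 h.2 h'.2) with h | h | h
  · rcases isEmpty_or_nonempty V with hV | ⟨⟨v⟩⟩
    · exact ⟨fun i => isEmptyElim i, fun i => isEmptyElim i, fun i => isEmptyElim i,
        fun i => isEmptyElim i⟩
    · exact star_case m f hs h0 A k hX hdeg v fun a b h1 h2 => absurd ⟨h1, h2⟩ (h a b)
  · obtain ⟨v, hv⟩ := h
    exact star_case m f hs h0 A k hX hdeg v fun a b h1 h2 => hv a b ⟨h1, h2⟩
  · obtain ⟨a1, a2, a3, h12, h13, h23, hv⟩ := h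
    have hv' : ∀ a b, m a b ≠ 0 → (a ∈ A ↔ b ∈ A) →
        (a = a1 ∨ a = a2 ∨ a = a3) ∧ (b = a1 ∨ b = a2 ∨ b = a3) := fun a b h1 h2 => hv a b ⟨h1, h2⟩
    have hne : ∀ a b, m a b ≠ 0 → a ≠ b := by
      rintro a b h rfl
      exact h (h0 a)
    by_cases c1 : a1 ∈ A <;> by_cases c2 : a2 ∈ A <;> by_cases c3 : a3 ∈ A
    · exact tri_case m f hs h0 A k hX hdeg a1 a2 a3 h12 h13 h23 c1 c2 c3 hv'
    · refine star_case m f hs h0 A k hX hdeg a1 fun a b h1 h2 => ?_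
      obtain ⟨ha, hb⟩ := hv' a b h1 h2
      have := hne a b h1
      rcases ha with rfl | rfl | rfl <;> rcases hb with rfl | rfl | rfl <;> simp_all
    · refine star_case m f hs h0 A k hX hdeg a1 fun a b h1 h2 => ?_
      obtain ⟨ha, hb⟩ := hv' a b h1 h2
      have := hne a b h1
      rcases ha with rfl | rfl | rfl <;> rcases hb with rfl | rfl | rfl <;> simp_all
    · refine star_case m f hs h0 A k hX hdeg a2 fun a b h1 h2 => ?_
      obtain ⟨ha, hb⟩ := hv' a b h1 h2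
      have := hne a b h1
      rcases ha with rfl | rfl | rfl <;> rcases hb with rfl | rfl | rfl <;> simp_all
    · refine star_case m f hs h0 A k hX hdeg a2 fun a b h1 h2 => ?_
      obtain ⟨ha, hb⟩ := hv' a b h1 h2
      have := hne a b h1
      rcases ha with rfl | rfl | rfl <;> rcases hb with rfl | rfl | rfl <;> simp_all
    · refine star_case m f hs h0 A k hX hdeg a1 fun a b h1 h2 => ?_
      obtain ⟨ha, hb⟩ := hv' a b h1 h2
      have := hne a b h1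
      rcases ha with rfl | rfl | rfl <;> rcases hb with rfl | rfl | rfl <;> simp_all
    · refine star_case m f hs h0 A k hX hdeg a1 fun a b h1 h2 => ?_
      obtain ⟨ha, hb⟩ := hv' a b h1 h2
      have := hne a b h1
      rcases ha with rfl | rfl | rfl <;> rcases hb with rfl | rfl | rfl <;> simp_all
    · refine tri_case m f hs h0 Aᶜ k hX hdeg a1 a2 a3 h12 h13 h23 (mem_compl.2 c1)
        (mem_compl.2 c2) (mem_compl.2 c3) fun a b h1 h2 => hv' a b h1 ?_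
      rw [mem_compl, mem_compl] at h2
      exact not_iff_not.1 h2

end Pool.Agent.H28.NB
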