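import Pool.Agent.H28.NB.Split

set_option autoImplicit false

namespace Pool.Agent.H28.NB

open Finset

variable {V : Type*} [DecidableEq V]

/-- The bipartite multigraph obtained by splitting `v`: rows `A ∪ {v}`, columns outside `A`. -/
def bip (m : V → V → ℕ) (A : Finset V) (v : V) (a b : V) : ℕ :=
  if (a ∈ A ∨ a = v) ∧ b ∉ A then m a b else 0

theorem bip_add {m : V → V → ℕ} {A : Finset V} {v : V} (hs : ∀ i j, m i j = m j i)
    (h0 : ∀ i, m i i = 0) (hv : v ∉ A)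
    (hb : ∀ i j, i ≠ v → j ≠ v → m i j ≠ 0 → (i ∈ A ↔ j ∉ A)) (i j : V) :
    bip m A v i j + bip m A v j i = m i j := by
  unfold bip
  by_cases hi : i ∈ A
  · by_cases hj : j ∈ A
    · have : m i j = 0 := by
        by_contra h
        exact (hb i j (fun h => hv (h ▸ hi)) (fun h => hv (h ▸ hj)) h).1 hi hj
      simp [hi, hj, this]
    · simp [hi, hj]
  · by_cases hj : j ∈ A
    · simp [hi, hj, hs j i]
    · by_cases hiv : i = v
      · subst hiv
        by_cases hjv : j = i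
        · subst hjv
          simp [hi, h0]
        · simp [hi, hj, hjv]
      · by_cases hjv : j = v
        · subst hjv
          simp [hi, hj, hiv, hs j i]
        · have : m i j = 0 := by
            by_contra h
            exact hi ((hb i j hiv hjv h).2 hj)
          simp [hi, hj, hiv, hjv, this]

theorem bip_col_zero {m : V → V → ℕ} {A : Finset V} {v : V} {b : V} (hb : b ∈ A) (a : V) :
    bip m A v a b = 0 := by
  unfold bip
  simp [hb]

theorem bip_row_zero {m : V → V → ℕ} {A : Finset V} {v : V} {a : V} (ha : a ∉ A) (hav : a ≠ v)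
    (b : V) : bip m A v a b = 0 := by
  unfold bip
  simp [ha, hav]

theorem bip_mem {m : V → V → ℕ} {A : Finset V} {v : V} {a b : V} (h : bip m A v a b ≠ 0) :
    (a ∈ A ∨ a = v) ∧ b ∉ A := by
  unfold bip at h
  by_contra hc
  rw [if_neg hc] at h
  exact h rfl

/-- the odd set inequality for the split multigraph -/
theorem blossom [Fintype V] {m : V → V → ℕ} {A : Finset V} {v : V} (hs : ∀ i j, m i j = m j i)
    (h0 : ∀ i, m i i = 0) (hv : v ∉ A)
    (hb : ∀ i j, i ≠ v → j ≠ v → m i j ≠ 0 → (i ∈ A ↔ j ∉ A)) (f : V → ℕ) (k : ℕ)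
    (hX : ∀ X : Finset V, (∑ i ∈ X, ∑ j ∈ X, m i j) ≤ 2 * (k * ((∑ i ∈ X, f i) / 2)))
    (g h : V → ℕ) (hg : ∀ a, a ≠ v → g a = f a) (hh : ∀ b, b ≠ v → h b = f b)
    (hgh : f v ≤ g v + h v) (X Y : Finset V) (hvX : v ∈ X) (hvY : v ∈ Y) :
    ∑ a ∈ X, ∑ b ∈ Y, bip m A v a b ≤ k * ((∑ a ∈ X, g a + ∑ b ∈ Y, h b) / 2) := by
  set W : Finset V := univ.filter (fun i => (i ∈ A ∧ i ∈ X) ∨ (i ∉ A ∧ i ∈ Y)) with hW
  have hmem : ∀ i, i ∈ W ↔ ((i ∈ A ∧ i ∈ X) ∨ (i ∉ A ∧ i ∈ Y)) := by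
    intro i
    rw [hW, mem_filter]
    exact ⟨fun h => h.2, fun h => ⟨mem_univ _, h⟩⟩
  have h1 : ∑ a ∈ X, ∑ b ∈ Y, bip m A v a b ≤ ∑ a ∈ W, ∑ b ∈ W, bip m A v a b := by
    rw [← sum_product', ← sum_product']
    refine sum_le_sum_of_ne_zero ?_
    rintro ⟨a, b⟩ hab hne
    rw [mem_product] at hab
    obtain ⟨ha, hbn⟩ := bip_mem hne
    rw [mem_product]
    refine ⟨(hmem a).2 ?_, (hmem b).2 (Or.inr ⟨hbn, hab.2⟩)⟩
    rcases ha with ha | ha
    · exact Or.inl ⟨ha, hab.1⟩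
    · have ha' : a = v := ha
      rw [ha']
      exact Or.inr ⟨hv, hvY⟩
  have h2 : ∑ a ∈ W, ∑ b ∈ W, m a b = 2 * ∑ a ∈ W, ∑ b ∈ W, bip m A v a b := by
    have e1 : ∑ a ∈ W, ∑ b ∈ W, m a b =
        ∑ a ∈ W, ∑ b ∈ W, bip m A v a b + ∑ a ∈ W, ∑ b ∈ W, bip m A v b a := by
      rw [← sum_add_distrib]
      refine sum_congr rfl fun a _ => ?_
      rw [← sum_add_distrib]
      exact sum_congr rfl fun b _ => (bip_add hs h0 hv hb a b).symm
    have e2 : ∑ a ∈ W, ∑ b ∈ W, bip m A v b a = ∑ a ∈ W, ∑ b ∈ W, bip m A v a b := sum_comm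
    rw [e1, e2]
    ring
  have h3 : ∑ i ∈ W, f i ≤ ∑ a ∈ X, g a + ∑ b ∈ Y, h b := by
    have e1 : ∑ i ∈ W, f i = ∑ i, if i ∈ W then f i else 0 := by
      rw [sum_ite_mem, univ_inter]
    have e2 : ∑ a ∈ X, g a = ∑ i, if i ∈ X then g i else 0 := by
      rw [sum_ite_mem, univ_inter]
    have e3 : ∑ a ∈ Y, h a = ∑ i, if i ∈ Y then h i else 0 := by
      rw [sum_ite_mem, univ_inter]
    rw [e1, e2, e3, ← sum_add_distrib]
    refine sum_le_sum fun i _ => ?_
    by_cases hiW : i ∈ W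
    · rw [if_pos hiW]
      by_cases hiv : i = v
      · subst hiv
        rw [if_pos hvX, if_pos hvY]
        exact hgh
      · rcases (hmem i).1 hiW with h4 | h4
        · rw [if_pos h4.2, hg i hiv]
          exact Nat.le_add_right _ _
        · rw [if_pos h4.2, hh i hiv]
          exact Nat.le_add_left _ _
    · rw [if_neg hiW]
      exact Nat.zero_le _
  have h4 := hX W
  rw [h2] at h4
  have h5 : ∑ a ∈ W, ∑ b ∈ W, bip m A v a b ≤ k * ((∑ i ∈ W, f i) / 2) := by omega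
  calc ∑ a ∈ X, ∑ b ∈ Y, bip m A v a b ≤ ∑ a ∈ W, ∑ b ∈ W, bip m A v a b := h1
    _ ≤ k * ((∑ i ∈ W, f i) / 2) := h5
    _ ≤ k * ((∑ a ∈ X, g a + ∑ b ∈ Y, h b) / 2) :=
        Nat.mul_le_mul_left k (Nat.div_le_div_right h3)

/-- glueing the two types of classes -/
theorem combine [Fintype V] {m : V → V → ℕ} {A : Finset V} {v : V} (hs : ∀ i j, m i j = m j i)
    (h0 : ∀ i, m i i = 0) (hv : v ∉ A)
    (hb : ∀ i j, i ≠ v → j ≠ v → m i j ≠ 0 → (i ∈ A ↔ j ∉ A)) (f : V → ℕ) (p s : ℕ)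
    (x : V → V → ℕ) (hx : ∀ a b, x a b ≤ bip m A v a b)
    (gI hI gII hII : V → ℕ) (hgI : ∀ a, a ≠ v → gI a = f a) (hhI : ∀ b, b ≠ v → hI b = f b)
    (hgII : ∀ a, a ≠ v → gII a = f a) (hhII : ∀ b, b ≠ v → hII b = f b)
    (hvI : 0 < p → gI v + hI v ≤ f v) (hvII : gII v + hII v ≤ f v)
    (x1 : ∀ a, ∑ b, x a b ≤ p * gI a) (x2 : ∀ b, ∑ a, x a b ≤ p * hI b)
    (x3 : ∀ a, ∑ b, (bip m A v a b - x a b) ≤ s * gII a)
    (x4 : ∀ b, ∑ a, (bip m A v a b - x a b) ≤ s * hII b) (k : ℕ) (hk : p + s = k) :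
    ∃ c : V → V → Fin k → ℕ, (∀ i j a, c i j a = c j i a) ∧ (∀ i j, ∑ a, c i j a = m i j) ∧
      (∀ u a, ∑ w, c u w a ≤ f u) := by
  subst hk
  obtain ⟨M, hM, hMr, hMc⟩ := fkonig gI hI p x x1 x2
  obtain ⟨N, hN, hNr, hNc⟩ := fkonig gII hII s (fun a b => bip m A v a b - x a b) x3 x4
  have key : ∀ (y : V → V → ℕ) (g h : V → ℕ), (∀ a b, y a b ≤ bip m A v a b) →
      (∀ a, a ≠ v → g a = f a) → (∀ b, b ≠ v → h b = f b) → g v + h v ≤ f v →
      (∀ a, ∑ b, y a b ≤ g a) → (∀ b, ∑ a, y a b ≤ h b) →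
      ∀ u, ∑ w, (y u w + y w u) ≤ f u := by
    intro y g h hy hg hh hgh hyr hyc u
    rw [sum_add_distrib]
    by_cases huv : u = v
    · subst huv
      exact (Nat.add_le_add (hyr _) (hyc _)).trans hgh
    · by_cases huA : u ∈ A
      · have : ∑ w, y w u = 0 := sum_eq_zero fun w _ => by
          have := hy w u
          rw [bip_col_zero huA] at this
          omega
        rw [this, add_zero, ← hg u huv]
        exact hyr u
      · have : ∑ w, y u w = 0 := sum_eq_zero fun w _ => by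
          have := hy u w
          rw [bip_row_zero huA huv] at this
          omega
        rw [this, zero_add, ← hh u huv]
        exact hyc u
  refine ⟨fun i j a => Fin.append M N a i j + Fin.append M N a j i, fun i j a => add_comm _ _,
    fun i j => ?_, fun u a => ?_⟩
  · rw [sum_add_distrib, Fin.sum_univ_add, Fin.sum_univ_add]
    simp only [Fin.append_left, Fin.append_right]
    rw [hM, hM, hN, hN, ← bip_add hs h0 hv hb i j]
    have e1 := hx i j
    have e2 := hx j i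
    show x i j + (bip m A v i j - x i j) + (x j i + (bip m A v j i - x j i)) = _
    omega
  · refine Fin.addCases (fun c => ?_) (fun c => ?_) a
    · simp only [Fin.append_left]
      have hle : ∀ a b, M c a b ≤ bip m A v a b := fun a b =>
        (single_le_sum (f := fun c => M c a b) (fun _ _ => Nat.zero_le _) (mem_univ c)).trans
          ((hM a b).le.trans (hx a b))
      exact key (M c) gI hI hle hgI hhI (hvI (c.pos)) (hMr c) (hMc c) u
    · simp only [Fin.append_right]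
      have hle : ∀ a b, N c a b ≤ bip m A v a b := fun a b =>
        (single_le_sum (f := fun c => N c a b) (fun _ _ => Nat.zero_le _) (mem_univ c)).trans
          ((hN a b).le.trans (Nat.sub_le _ _))
      exact key (N c) gII hII hle hgII hhII hvII (hNr c) (hNc c) u

end Pool.Agent.H28.NB
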