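import Pool.Agent.PStar.VC.Sub

set_option autoImplicit false

namespace Pool.Agent.H28.NB

open Finset PStar

/-- Two-type splitting of a bipartite multigraph: the cut conditions are sufficient. -/
theorem split_of_cuts {α β : Type*} [Fintype α] [Fintype β] [DecidableEq α] [DecidableEq β]
    (m : α → β → ℕ) (gI gII : α → ℕ) (hI hII : β → ℕ) (p s : ℕ)
    (hrow : ∀ a, ∑ b, m a b ≤ p * gI a + s * gII a)
    (hcol : ∀ b, ∑ a, m a b ≤ p * hI b + s * hII b)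
    (c1 : ∀ (X : Finset α) (Y : Finset β),
      ∑ a ∈ X, ∑ b ∈ Y, m a b ≤ s * ∑ a ∈ X, gII a + p * ∑ b ∈ Y, hI b)
    (c2 : ∀ (X : Finset α) (Y : Finset β),
      ∑ a ∈ X, ∑ b ∈ Y, m a b ≤ s * ∑ b ∈ Y, hII b + p * ∑ a ∈ X, gI a) :
    ∃ x : α → β → ℕ, (∀ a b, x a b ≤ m a b) ∧
      (∀ a, ∑ b, x a b ≤ p * gI a) ∧ (∀ b, ∑ a, x a b ≤ p * hI b) ∧
      (∀ a, ∑ b, (m a b - x a b) ≤ s * gII a) ∧ (∀ b, ∑ a, (m a b - x a b) ≤ s * hII b) := by
  obtain ⟨x, hx, x1, x2, x3, x4⟩ := exists_subdeg m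
    (fun a => (∑ b, (m a b : ℤ)) - (s : ℤ) * gII a) (fun a => (p : ℤ) * gI a)
    (fun b => (∑ a, (m a b : ℤ)) - (s : ℤ) * hII b) (fun b => (p : ℤ) * hI b)
    (by
      intro a
      have h := hrow a
      have h' : (∑ b, (m a b : ℤ)) ≤ (p : ℤ) * gI a + (s : ℤ) * gII a := by exact_mod_cast h
      show (∑ b, (m a b : ℤ)) - (s : ℤ) * gII a ≤ (p : ℤ) * gI a
      linarith)
    (by
      intro b
      have h := hcol b
      have h' : (∑ a, (m a b : ℤ)) ≤ (p : ℤ) * hI b + (s : ℤ) * hII b := by exact_mod_cast h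
      show (∑ a, (m a b : ℤ)) - (s : ℤ) * hII b ≤ (p : ℤ) * hI b
      linarith)
    (by
      intro X Y
      have h := c1 X Y
      have h' : ∑ a ∈ X, ∑ b ∈ Y, (m a b : ℤ) ≤
          (s : ℤ) * ∑ a ∈ X, (gII a : ℤ) + (p : ℤ) * ∑ b ∈ Y, (hI b : ℤ) := by exact_mod_cast h
      have h3 : ∑ a ∈ X, ((∑ b, (m a b : ℤ)) - (s : ℤ) * gII a) =
          ∑ a ∈ X, ∑ b ∈ Y, (m a b : ℤ) + ∑ a ∈ X, ∑ b ∈ Yᶜ, (m a b : ℤ) -
            (s : ℤ) * ∑ a ∈ X, (gII a : ℤ) := by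
        rw [sum_sub_distrib, ← sum_add_distrib, mul_sum]
        simp only [sum_add_sum_compl]
      rw [h3, ← mul_sum]
      linarith)
    (by
      intro X Y
      have h := c2 X Y
      have h' : ∑ a ∈ X, ∑ b ∈ Y, (m a b : ℤ) ≤
          (s : ℤ) * ∑ b ∈ Y, (hII b : ℤ) + (p : ℤ) * ∑ a ∈ X, (gI a : ℤ) := by exact_mod_cast h
      have h3 : ∑ b ∈ Y, ((∑ a, (m a b : ℤ)) - (s : ℤ) * hII b) =
          ∑ a ∈ X, ∑ b ∈ Y, (m a b : ℤ) + ∑ a ∈ Xᶜ, ∑ b ∈ Y, (m a b : ℤ) -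
            (s : ℤ) * ∑ b ∈ Y, (hII b : ℤ) := by
        rw [sum_sub_distrib, sum_comm (s := X), sum_comm (s := Xᶜ), ← sum_add_distrib, mul_sum]
        simp only [sum_add_sum_compl]
      rw [h3, ← mul_sum]
      linarith)
  refine ⟨x, hx, fun a => by exact_mod_cast x2 a, fun b => by exact_mod_cast x4 b,
    fun a => ?_, fun b => ?_⟩
  · have h1 := x1 a
    have h2 : (∑ b, ((m a b - x a b : ℕ) : ℤ)) = (∑ b, (m a b : ℤ)) - ∑ b, (x a b : ℤ) := by
      rw [← sum_sub_distrib]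
      exact sum_congr rfl fun b _ => Nat.cast_sub (hx a b)
    have h3 : (∑ b, ((m a b - x a b : ℕ) : ℤ)) ≤ (s : ℤ) * gII a := by
      rw [h2]; linarith
    exact_mod_cast h3
  · have h1 := x3 b
    have h2 : (∑ a, ((m a b - x a b : ℕ) : ℤ)) = (∑ a, (m a b : ℤ)) - ∑ a, (x a b : ℤ) := by
      rw [← sum_sub_distrib]
      exact sum_congr rfl fun a _ => Nat.cast_sub (hx a b)
    have h3 : (∑ a, ((m a b - x a b : ℕ) : ℤ)) ≤ (s : ℤ) * hII b := by
      rw [h2]; linarith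
    exact_mod_cast h3

private theorem cut_row {α β : Type*} [Fintype β] [DecidableEq β] (m : α → β → ℕ) (c : α → ℕ)
    (h : ∀ a, ∑ b, m a b ≤ c a) (X : Finset α) (Y : Finset β) :
    ∑ a ∈ X, ∑ b ∈ Y, m a b ≤ ∑ a ∈ X, c a :=
  sum_le_sum fun a _ => (sum_le_sum_of_subset (subset_univ Y)).trans (h a)

private theorem cut_col {α β : Type*} [Fintype α] [DecidableEq α] (m : α → β → ℕ) (c : β → ℕ)
    (h : ∀ b, ∑ a, m a b ≤ c b) (X : Finset α) (Y : Finset β) :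
    ∑ a ∈ X, ∑ b ∈ Y, m a b ≤ ∑ b ∈ Y, c b := by
  rw [sum_comm]
  exact sum_le_sum fun b _ => (sum_le_sum_of_subset (subset_univ X)).trans (h b)

theorem cutRow {α β : Type*} [Fintype β] [DecidableEq β] (m : α → β → ℕ) (c : α → ℕ)
    (h : ∀ a, ∑ b, m a b ≤ c a) (X : Finset α) (Y : Finset β) :
    ∑ a ∈ X, ∑ b ∈ Y, m a b ≤ ∑ a ∈ X, c a := cut_row m c h X Y

theorem cutCol {α β : Type*} [Fintype α] [DecidableEq α] (m : α → β → ℕ) (c : β → ℕ)
    (h : ∀ b, ∑ a, m a b ≤ c b) (X : Finset α) (Y : Finset β) :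
    ∑ a ∈ X, ∑ b ∈ Y, m a b ≤ ∑ b ∈ Y, c b := cut_col m c h X Y

private theorem arith1 (e r P Q : ℕ) (h1 : e ≤ (r + 1) * P) (h2 : e ≤ (r + 1) * Q) :
    e ≤ r * P + 1 * Q := by
  rcases le_total P Q with h | h
  · calc e ≤ (r + 1) * P := h1
      _ = r * P + P := by ring
      _ ≤ r * P + 1 * Q := by omega
  · have h3 : r * Q ≤ r * P := Nat.mul_le_mul_left r h
    calc e ≤ (r + 1) * Q := h2
      _ = r * Q + Q := by ring
      _ ≤ r * P + 1 * Q := by omega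

/-- Koenig's edge colouring theorem for bipartite multigraphs, with capacities. -/
theorem fkonig {α β : Type*} [Fintype α] [Fintype β] [DecidableEq α] [DecidableEq β]
    (g : α → ℕ) (h : β → ℕ) (r : ℕ) :
    ∀ m : α → β → ℕ, (∀ a, ∑ b, m a b ≤ r * g a) → (∀ b, ∑ a, m a b ≤ r * h b) →
    ∃ M : Fin r → α → β → ℕ, (∀ a b, ∑ c, M c a b = m a b) ∧
      (∀ c a, ∑ b, M c a b ≤ g a) ∧ (∀ c b, ∑ a, M c a b ≤ h b) := by
  induction r with
  | zero =>
    intro m hA _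
    refine ⟨fun c => c.elim0, fun a b => ?_, fun c => c.elim0, fun c => c.elim0⟩
    have h1 := hA a
    have h2 : m a b ≤ ∑ b, m a b :=
      single_le_sum (f := fun b => m a b) (fun _ _ => Nat.zero_le _) (mem_univ b)
    simp only [univ_eq_empty, sum_empty]
    omega
  | succ r ih =>
    intro m hA hB
    have e1 : ∀ (X : Finset α) (Y : Finset β),
        ∑ a ∈ X, ∑ b ∈ Y, m a b ≤ (r + 1) * ∑ a ∈ X, g a := fun X Y => by
      rw [mul_sum]; exact cutRow m _ hA X Y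
    have e2 : ∀ (X : Finset α) (Y : Finset β),
        ∑ a ∈ X, ∑ b ∈ Y, m a b ≤ (r + 1) * ∑ b ∈ Y, h b := fun X Y => by
      rw [mul_sum]; exact cutCol m _ hB X Y
    obtain ⟨x, hx, x1, x2, x3, x4⟩ := split_of_cuts m g g h h 1 r
      (fun a => by rw [← add_mul, add_comm 1 r]; exact hA a)
      (fun b => by rw [← add_mul, add_comm 1 r]; exact hB b)
      (fun X Y => arith1 _ r _ _ (e1 X Y) (e2 X Y))
      (fun X Y => arith1 _ r _ _ (e2 X Y) (e1 X Y))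
    obtain ⟨M, hM, hMA, hMB⟩ := ih (fun a b => m a b - x a b) x3 x4
    refine ⟨Fin.cons x M, fun a b => ?_, fun c a => ?_, fun c b => ?_⟩
    · rw [Fin.sum_univ_succ]
      simp only [Fin.cons_zero, Fin.cons_succ]
      rw [hM a b]
      have := hx a b
      omega
    · refine Fin.cases ?_ (fun c => ?_) c
      · simp only [Fin.cons_zero]
        have := x1 a
        rwa [one_mul] at this
      · simp only [Fin.cons_succ]
        exact hMA c a
    · refine Fin.cases ?_ (fun c => ?_) c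
      · simp only [Fin.cons_zero]
        have := x2 b
        rwa [one_mul] at this
      · simp only [Fin.cons_succ]
        exact hMB c b

end Pool.Agent.H28.NB
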