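import Pool.Agent.H28.NB.Split

set_option autoImplicit false

namespace Pool.Agent.H28.NB

open Finset

variable {V : Type*} [DecidableEq V]

/-- The bipartite multigraph which simulates a bipartite multigraph together with a fat triangle
`p 0, p 1, p 2` (`x i` is the multiplicity of the edge opposite to `p i`): a new row `none` and
three new columns. -/
def tri (M : V → V → ℕ) (p : Fin 3 → V) (x : Fin 3 → ℕ) : Option V → V ⊕ Fin 3 → ℕ
  | some a, Sum.inl b => M a b
  | some a, Sum.inr i => if a = p i then x (i + 1) + x (i + 2) else 0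
  | none, Sum.inl _ => 0
  | none, Sum.inr i => x i

theorem tri_row_some [Fintype V] (M : V → V → ℕ) (p : Fin 3 → V) (x : Fin 3 → ℕ) (a : V) :
    ∑ b, tri M p x (some a) b =
      ∑ b, M a b + ∑ i : Fin 3, (if a = p i then x (i + 1) + x (i + 2) else 0) := by
  rw [Fintype.sum_sum_type]
  rfl

theorem tri_row_none [Fintype V] (M : V → V → ℕ) (p : Fin 3 → V) (x : Fin 3 → ℕ) :
    ∑ b, tri M p x none b = ∑ i, x i := by
  rw [Fintype.sum_sum_type]
  show ∑ _b : V, 0 + ∑ i : Fin 3, x i = _
  rw [sum_const_zero, zero_add]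

theorem tri_col_inl [Fintype V] (M : V → V → ℕ) (p : Fin 3 → V) (x : Fin 3 → ℕ) (b : V) :
    ∑ a, tri M p x a (Sum.inl b) = ∑ a, M a b := by
  rw [Fintype.sum_option]
  show 0 + ∑ a, M a b = _
  rw [zero_add]

theorem tri_col_inr [Fintype V] (M : V → V → ℕ) (p : Fin 3 → V) (x : Fin 3 → ℕ) (i : Fin 3) :
    ∑ a, tri M p x a (Sum.inr i) = ∑ i, x i := by
  rw [Fintype.sum_option]
  show x i + ∑ a, (if a = p i then x (i + 1) + x (i + 2) else 0) = _
  rw [sum_ite_eq' univ (p i), if_pos (mem_univ _), Fin.sum_univ_three]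
  fin_cases i
  · show x 0 + (x 1 + x 2) = _
    ring
  · show x 1 + (x 2 + x 0) = _
    ring
  · show x 2 + (x 0 + x 1) = _
    ring

end Pool.Agent.H28.NB
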