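import Pool.Agent.H28.NB.TriA

set_option autoImplicit false

namespace Pool.Agent.H28.NB

open Finset

variable {V : Type*} [DecidableEq V]

/-- The fat triangle `p 0, p 1, p 2` in which the edge opposite to `p i` has multiplicity `x i`. -/
def T3 (p : Fin 3 → V) (x : Fin 3 → ℕ) (a b : V) : ℕ :=
  ∑ i : Fin 3, ((if a = p (i + 1) then (if b = p (i + 2) then x i else 0) else 0) +
    (if a = p (i + 2) then (if b = p (i + 1) then x i else 0) else 0))

theorem T3_symm (p : Fin 3 → V) (x : Fin 3 → ℕ) (a b : V) : T3 p x a b = T3 p x b a := by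
  unfold T3
  refine sum_congr rfl fun i _ => ?_
  rw [add_comm]
  congr 1
  · by_cases h1 : a = p (i + 2)
    · by_cases h2 : b = p (i + 1)
      · rw [if_pos h1, if_pos h2, if_pos h2, if_pos h1]
      · rw [if_pos h1, if_neg h2, if_neg h2]
    · by_cases h2 : b = p (i + 1)
      · rw [if_neg h1, if_pos h2, if_neg h1]
      · rw [if_neg h1, if_neg h2]
  · by_cases h1 : a = p (i + 1)
    · by_cases h2 : b = p (i + 2)
      · rw [if_pos h1, if_pos h2, if_pos h2, if_pos h1]
      · rw [if_pos h1, if_neg h2, if_neg h2]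
    · by_cases h2 : b = p (i + 2)
      · rw [if_neg h1, if_pos h2, if_neg h1]
      · rw [if_neg h1, if_neg h2]

theorem T3_row [Fintype V] (p : Fin 3 → V) (x : Fin 3 → ℕ) (a : V) :
    ∑ b, T3 p x a b = ∑ i : Fin 3, (if a = p i then x (i + 1) + x (i + 2) else 0) := by
  unfold T3
  rw [sum_comm]
  have h : ∀ i : Fin 3, ∑ b, ((if a = p (i + 1) then (if b = p (i + 2) then x i else 0) else 0) +
      (if a = p (i + 2) then (if b = p (i + 1) then x i else 0) else 0)) =
      (if a = p (i + 1) then x i else 0) + (if a = p (i + 2) then x i else 0) := by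
    intro i
    rw [sum_add_distrib]
    congr 1
    · by_cases h1 : a = p (i + 1)
      · simp only [if_pos h1]
        rw [sum_ite_eq' univ (p (i + 2)), if_pos (mem_univ _)]
      · simp only [if_neg h1]
        exact sum_const_zero
    · by_cases h1 : a = p (i + 2)
      · simp only [if_pos h1]
        rw [sum_ite_eq' univ (p (i + 1)), if_pos (mem_univ _)]
      · simp only [if_neg h1]
        exact sum_const_zero
  rw [sum_congr rfl (fun i _ => h i), Fin.sum_univ_three, Fin.sum_univ_three]
  have e : ∀ i : Fin 3, (if a = p i then x (i + 1) + x (i + 2) else 0) =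
      (if a = p i then x (i + 1) else 0) + (if a = p i then x (i + 2) else 0) := by
    intro i
    by_cases h1 : a = p i
    · rw [if_pos h1, if_pos h1, if_pos h1]
    · rw [if_neg h1, if_neg h1, if_neg h1]
  rw [e, e, e]
  show (if a = p 1 then x 0 else 0) + (if a = p 2 then x 0 else 0) +
    ((if a = p 2 then x 1 else 0) + (if a = p 0 then x 1 else 0)) +
    ((if a = p 0 then x 2 else 0) + (if a = p 1 then x 2 else 0)) =
    (if a = p 0 then x 1 else 0) + (if a = p 0 then x 2 else 0) +
    ((if a = p 1 then x 2 else 0) + (if a = p 1 then x 0 else 0)) +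
    ((if a = p 2 then x 0 else 0) + (if a = p 2 then x 1 else 0))
  ring

theorem T3_sum {n : ℕ} (p : Fin 3 → V) (z : Fin n → Fin 3 → ℕ) (a b : V) :
    ∑ c, T3 p (z c) a b = T3 p (fun i => ∑ c, z c i) a b := by
  unfold T3
  rw [sum_comm]
  refine sum_congr rfl fun i _ => ?_
  rw [sum_add_distrib]
  congr 1
  · by_cases h1 : a = p (i + 1)
    · by_cases h2 : b = p (i + 2)
      · simp only [if_pos h1, if_pos h2]
      · simp only [if_pos h1, if_neg h2]
        exact sum_const_zero
    · simp only [if_neg h1]
      exact sum_const_zero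
  · by_cases h1 : a = p (i + 2)
    · by_cases h2 : b = p (i + 1)
      · simp only [if_pos h1, if_pos h2]
      · simp only [if_pos h1, if_neg h2]
        exact sum_const_zero
    · simp only [if_neg h1]
      exact sum_const_zero

theorem T3_add (p : Fin 3 → V) (x y : Fin 3 → ℕ) (a b : V) :
    T3 p x a b + T3 p y a b = T3 p (fun i => x i + y i) a b := by
  unfold T3
  rw [← sum_add_distrib]
  refine sum_congr rfl fun i _ => ?_
  by_cases h1 : a = p (i + 1) <;> by_cases h2 : b = p (i + 2) <;> by_cases h3 : a = p (i + 2) <;>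
    by_cases h4 : b = p (i + 1) <;> simp only [h1, h2, h3, h4, if_true, if_false] <;>
    split_ifs <;> omega

private theorem exact_of_le {n : ℕ} (a : Fin n → ℕ) (t : ℕ) (h : ∀ c, a c ≤ t)
    (hs : ∑ c, a c = n * t) (c : Fin n) : a c = t := by
  have h1 : ∑ c, a c = ∑ _c : Fin n, t := by
    rw [hs, sum_const, card_univ, Fintype.card_fin, smul_eq_mul]
  exact ((sum_eq_sum_iff_of_le fun i _ => h i).1 h1) c (mem_univ c)

/-- the inside of a part: `n` classes with `t` triangle edges each -/
theorem part [Fintype V] {M : V → V → ℕ} {A : Finset V} (hM1 : ∀ a b, b ∈ A → M a b = 0)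
    (hM2 : ∀ a b, a ∉ A → M a b = 0) (p : Fin 3 → V) (hp : ∀ i, p i ∈ A) (x : Fin 3 → ℕ)
    (f : V → ℕ) (n t : ℕ) (y : Option V → V ⊕ Fin 3 → ℕ)
    (hy : ∀ a b, y a b ≤ tri M p x a b)
    (h1 : ∀ a, ∑ b, y (some a) b ≤ n * f a) (h2 : ∑ b, y none b = n * t)
    (h3 : ∀ b, ∑ a, y a (Sum.inl b) ≤ n * f b) (h4 : ∀ i, ∑ a, y a (Sum.inr i) = n * t) :
    ∃ C : Fin n → V → V → ℕ, (∀ c i j, C c i j = C c j i) ∧
      (∀ i j, ∑ c, C c i j = y (some i) (Sum.inl j) + y (some j) (Sum.inl i) +
        T3 p (fun l => y none (Sum.inr l)) i j) ∧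
      (∀ c u, ∑ w, C c u w ≤ f u) := by
  obtain ⟨N, hN, hr, hc⟩ := fkonig
    (fun a : Option V => match a with | some a => f a | none => t)
    (fun b : V ⊕ Fin 3 => match b with | Sum.inl b => f b | Sum.inr _ => t) n y
    (by
      rintro (_ | a)
      · exact h2.le
      · exact h1 a)
    (by
      rintro (b | i)
      · exact h3 b
      · exact (h4 i).le)
  have hle : ∀ c a b, N c a b ≤ tri M p x a b := fun c a b =>
    (single_le_sum (f := fun c => N c a b) (fun _ _ => Nat.zero_le _) (mem_univ c)).trans
      ((hN a b).le.trans (hy a b))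
  -- exactness
  have hrow : ∀ c, ∑ b, N c none b = t := by
    refine exact_of_le _ t (fun c => hr c none) ?_
    rw [sum_comm, ← h2]
    exact sum_congr rfl fun b _ => hN none b
  have hcol : ∀ c i, ∑ a, N c a (Sum.inr i) = t := by
    intro c i
    refine exact_of_le (fun c => ∑ a, N c a (Sum.inr i)) t (fun c => hc c (Sum.inr i)) ?_ c
    rw [sum_comm, ← h4 i]
    exact sum_congr rfl fun b _ => hN b (Sum.inr i)
  have hz : ∀ c, N c none (Sum.inr 0) + N c none (Sum.inr 1) + N c none (Sum.inr 2) = t := by
    intro c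
    have h := hrow c
    rw [Fintype.sum_sum_type, Fin.sum_univ_three] at h
    have h0 : ∑ b : V, N c none (Sum.inl b) = 0 := sum_eq_zero fun b _ => by
      have := hle c none (Sum.inl b)
      exact Nat.le_zero.1 this
    omega
  have hzero : ∀ c a i, a ≠ p i → N c (some a) (Sum.inr i) = 0 := by
    intro c a i ha
    have h : N c (some a) (Sum.inr i) ≤ if a = p i then x (i + 1) + x (i + 2) else 0 :=
      hle c (some a) (Sum.inr i)
    rw [if_neg ha] at h
    omega
  have hq : ∀ c i, N c none (Sum.inr i) + N c (some (p i)) (Sum.inr i) = t := by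
    intro c i
    have h := hcol c i
    rw [Fintype.sum_option, sum_eq_single (p i) (fun a _ ha => hzero c a i ha)
      (fun h => absurd (mem_univ _) h)] at h
    exact h
  have hq' : ∀ c (i : Fin 3), N c none (Sum.inr (i + 1)) + N c none (Sum.inr (i + 2)) =
      N c (some (p i)) (Sum.inr i) := by
    intro c i
    have h1 := hz c
    have h2 := hq c i
    fin_cases i
    · show N c none (Sum.inr 1) + N c none (Sum.inr 2) = N c (some (p 0)) (Sum.inr 0)
      have h3 : N c none (Sum.inr 0) + N c (some (p 0)) (Sum.inr 0) = t := h2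
      omega
    · show N c none (Sum.inr 2) + N c none (Sum.inr 0) = N c (some (p 1)) (Sum.inr 1)
      have h3 : N c none (Sum.inr 1) + N c (some (p 1)) (Sum.inr 1) = t := h2
      omega
    · show N c none (Sum.inr 0) + N c none (Sum.inr 1) = N c (some (p 2)) (Sum.inr 2)
      have h3 : N c none (Sum.inr 2) + N c (some (p 2)) (Sum.inr 2) = t := h2
      omega
  refine ⟨fun c i j => N c (some i) (Sum.inl j) + N c (some j) (Sum.inl i) +
    T3 p (fun l => N c none (Sum.inr l)) i j, fun c i j => ?_, fun i j => ?_, fun c u => ?_⟩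
  · show _ + _ + _ = _ + _ + _
    rw [T3_symm p _ i j, add_comm (N c (some i) (Sum.inl j))]
  · rw [sum_add_distrib, sum_add_distrib, T3_sum, hN, hN]
    congr 2
    funext l
    exact hN none (Sum.inr l)
  · rw [sum_add_distrib, sum_add_distrib, T3_row]
    by_cases hu : u ∈ A
    · have e1 : ∑ w, N c (some w) (Sum.inl u) = 0 := sum_eq_zero fun w _ => by
        have h : N c (some w) (Sum.inl u) ≤ M w u := hle c (some w) (Sum.inl u)
        rw [hM1 w u hu] at h
        omega
      have e2 : (∑ i : Fin 3, if u = p i then N c none (Sum.inr (i + 1)) +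
          N c none (Sum.inr (i + 2)) else 0) = ∑ i : Fin 3, N c (some u) (Sum.inr i) := by
        refine sum_congr rfl fun i _ => ?_
        by_cases hi : u = p i
        · rw [if_pos hi, hq' c i, hi]
        · rw [if_neg hi, hzero c u i hi]
      rw [e1, e2, add_zero]
      have h := hr c (some u)
      rw [Fintype.sum_sum_type] at h
      exact h
    · have e1 : ∑ w, N c (some u) (Sum.inl w) = 0 := sum_eq_zero fun w _ => by
        have h : N c (some u) (Sum.inl w) ≤ M u w := hle c (some u) (Sum.inl w)
        rw [hM2 u w hu] at h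
        omega
      have e2 : (∑ i : Fin 3, if u = p i then N c none (Sum.inr (i + 1)) +
          N c none (Sum.inr (i + 2)) else 0) = 0 := by
        refine sum_eq_zero fun i _ => ?_
        rw [if_neg]
        rintro rfl
        exact hu (hp i)
      rw [e1, e2, zero_add, add_zero]
      have h := hc c (Sum.inl u)
      rw [Fintype.sum_option] at h
      exact (Nat.le_add_left _ _).trans h

end Pool.Agent.H28.NB
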