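import Pool.Agent.H28.NB.TriB
import Pool.Agent.H28.NB.Main

set_option autoImplicit false

namespace Pool.Agent.H28.NB

open Finset

variable {V : Type*} [DecidableEq V]

/-- the bipartite part -/
def bp (m : V → V → ℕ) (A : Finset V) (a b : V) : ℕ := if a ∈ A ∧ b ∉ A then m a b else 0

/-- indicator -/
def ind (P : Prop) [Decidable P] : ℕ := if P then 1 else 0

theorem ind_le (P : Prop) [Decidable P] : ind P ≤ 1 := by
  unfold ind
  by_cases h : P
  · rw [if_pos h]
  · rw [if_neg h]; exact Nat.zero_le _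

theorem sum_option_mem [Fintype V] (X : Finset (Option V)) (F : Option V → ℕ) :
    ∑ a ∈ X, F a = ∑ a ∈ univ.filter (fun a : V => some a ∈ X), F (some a) +
      ind (none ∈ X) * F none := by
  have h1 : ∑ a ∈ X, F a = ∑ a, if a ∈ X then F a else 0 := by
    rw [sum_ite_mem, univ_inter]
  rw [h1, Fintype.sum_option, sum_filter, add_comm]
  congr 1
  unfold ind
  by_cases h : none ∈ X
  · rw [if_pos h, if_pos h, one_mul]
  · rw [if_neg h, if_neg h, zero_mul]

theorem sum_sum_mem [Fintype V] (Y : Finset (V ⊕ Fin 3)) (F : V ⊕ Fin 3 → ℕ) :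
    ∑ b ∈ Y, F b = ∑ b ∈ univ.filter (fun b : V => Sum.inl b ∈ Y), F (Sum.inl b) +
      (ind (Sum.inr 0 ∈ Y) * F (Sum.inr 0) + ind (Sum.inr 1 ∈ Y) * F (Sum.inr 1) +
        ind (Sum.inr 2 ∈ Y) * F (Sum.inr 2)) := by
  have h1 : ∑ a ∈ Y, F a = ∑ a, if a ∈ Y then F a else 0 := by
    rw [sum_ite_mem, univ_inter]
  rw [h1, Fintype.sum_sum_type, sum_filter, Fin.sum_univ_three]
  congr 1
  have h2 : ∀ i : Fin 3, (if (Sum.inr i : V ⊕ Fin 3) ∈ Y then F (Sum.inr i) else 0) =
      ind ((Sum.inr i : V ⊕ Fin 3) ∈ Y) * F (Sum.inr i) := by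
    intro i
    unfold ind
    by_cases h : (Sum.inr i : V ⊕ Fin 3) ∈ Y
    · rw [if_pos h, if_pos h, one_mul]
    · rw [if_neg h, if_neg h, zero_mul]
  rw [h2, h2, h2]

private theorem zo {a : ℕ} (h : a ≤ 1) : a = 0 ∨ a = 1 := by omega

private theorem factF (tr j0 j1 j2 i0 i1 i2 x0 x1 x2 : ℕ) (hj0 : j0 ≤ 1) (hj1 : j1 ≤ 1)
    (hj2 : j2 ≤ 1) (hi0 : i0 ≤ 1) (hi1 : i1 ≤ 1) (hi2 : i2 ≤ 1)
    (htr : tr = i1 * i2 * x0 + i2 * i0 * x1 + i0 * i1 * x2) :
    j0 * (i0 * (x1 + x2)) + j1 * (i1 * (x2 + x0)) + j2 * (i2 * (x0 + x1)) ≤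
      tr + (x0 + x1 + x2) ∧
    j0 * (i0 * (x1 + x2)) + j1 * (i1 * (x2 + x0)) + j2 * (i2 * (x0 + x1)) ≤
      2 * (x0 + x1 + x2) := by
  subst htr
  rcases zo hj0 with rfl | rfl <;> rcases zo hj1 with rfl | rfl <;>
    rcases zo hj2 with rfl | rfl <;> rcases zo hi0 with rfl | rfl <;>
    rcases zo hi1 with rfl | rfl <;> rcases zo hi2 with rfl | rfl <;>
    simp only [zero_mul, one_mul, mul_zero, zero_add, add_zero] <;> omega

/-- the numerical heart: the second family of cut conditions -/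
theorem cut_arith (e e0 tr s r k τ fS fT w j0 j1 j2 i0 i1 i2 x0 x1 x2 : ℕ)
    (hk : s + r = k) (hx : x0 + x1 + x2 = k * τ + r)
    (hw : w ≤ 1) (hj0 : j0 ≤ 1) (hj1 : j1 ≤ 1) (hj2 : j2 ≤ 1) (hi0 : i0 ≤ 1) (hi1 : i1 ≤ 1)
    (hi2 : i2 ≤ 1)
    (he : e = e0 + (j0 * (i0 * (x1 + x2) + w * x0) + j1 * (i1 * (x2 + x0) + w * x1) +
      j2 * (i2 * (x0 + x1) + w * x2)))
    (htr : tr = i1 * i2 * x0 + i2 * i0 * x1 + i0 * i1 * x2)
    (d1 : e ≤ k * (fS + w * τ) + w * r)
    (d2 : e ≤ k * (fT + (j0 + j1 + j2) * τ) + (j0 + j1 + j2) * r)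
    (d0 : e0 ≤ k * fT) (d3 : e0 + tr ≤ k * ((fS + fT) / 2)) :
    e ≤ s * (fT + (j0 + j1 + j2) * τ) + r * (fS + w * τ + w) := by
  obtain ⟨F1, F2⟩ := factF tr j0 j1 j2 i0 i1 i2 x0 x1 x2 hj0 hj1 hj2 hi0 hi1 hi2 htr
  set G := j0 * (i0 * (x1 + x2)) + j1 * (i1 * (x2 + x0)) + j2 * (i2 * (x0 + x1)) with hG
  have he' : e = e0 + G + w * (j0 * x0 + j1 * x1 + j2 * x2) := by
    rw [he, hG]; ring
  generalize hJ : j0 + j1 + j2 = J at d2 ⊢
  have hksP : ∀ P : ℕ, k * P = s * P + r * P := fun P => by rw [← hk]; ring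
  rcases Nat.lt_or_ge (fT + J * τ) (fS + w * τ) with h | h
  · rcases Nat.lt_or_ge (fS + w * τ + w) (fT + J * τ + J) with h' | h'
    · -- the exceptional cases
      rcases zo hw with rfl | rfl
      · have hJ' : J = 2 ∨ J = 3 := by
          simp only [zero_mul, add_zero] at h h'
          omega
        simp only [zero_mul, add_zero] at h h' he' ⊢
        rcases hJ' with rfl | rfl
        · have hS : fS = fT + 2 * τ + 1 := by omega
          have h2 : (fS + fT) / 2 = fT + τ := by omega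
          rw [h2, mul_add] at d3
          rw [hS]
          have e1 : s * (fT + 2 * τ) + r * (fT + 2 * τ + 1) =
              k * fT + k * τ + (k * τ + r) := by rw [← hk]; ring
          rw [e1]
          omega
        · have hS : fS = fT + 3 * τ + 1 ∨ fS = fT + 3 * τ + 2 := by omega
          rcases hS with hS | hS
          · have h2 : (fS + fT) / 2 ≤ fT + 2 * τ := by omega
            have h3 : k * ((fS + fT) / 2) ≤ k * (fT + 2 * τ) := Nat.mul_le_mul_left k h2
            have e1 : s * (fT + 3 * τ) + r * (fT + 3 * τ + 1) =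
                k * (fT + 2 * τ) + (k * τ + r) := by rw [← hk]; ring
            rw [hS, e1]
            omega
          · have e1 : s * (fT + 3 * τ) + r * (fT + 3 * τ + 2) =
                k * fT + k * τ + 2 * (k * τ + r) := by rw [← hk]; ring
            rw [hS, e1]
            omega
      · simp only [one_mul] at h h' he' ⊢
        have hJ' : J = 3 := by omega
        subst hJ'
        have hj : j0 = 1 ∧ j1 = 1 ∧ j2 = 1 := by omega
        obtain ⟨rfl, rfl, rfl⟩ := hj
        have hS : fS = fT + 2 * τ + 1 := by omega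
        have h2 : (fS + fT) / 2 = fT + τ := by omega
        rw [h2, mul_add] at d3
        simp only [one_mul] at he'
        have e1 : s * (fT + 3 * τ) + r * (fT + 2 * τ + 1 + τ + 1) =
            k * fT + k * τ + 2 * (k * τ + r) := by rw [← hk]; ring
        rw [hS, e1]
        omega
    · have h1 : r * (fT + J * τ + J) ≤ r * (fS + w * τ + w) := Nat.mul_le_mul_left r h'
      have h2 := hksP (fT + J * τ)
      have h3 : r * (fT + J * τ + J) = r * (fT + J * τ) + J * r := by ring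
      omega
  · have h1 : s * (fS + w * τ) ≤ s * (fT + J * τ) := Nat.mul_le_mul_left s h
    have h2 := hksP (fS + w * τ)
    have h3 : r * (fS + w * τ + w) = r * (fS + w * τ) + w * r := by ring
    omega

/-- the first family of cut conditions -/
theorem cut_arith1 (e s r k P Q w J : ℕ) (hk : s + r = k) (hw : w ≤ 1)
    (d1 : e ≤ k * P + w * r) (d2 : e ≤ k * Q + J * r) :
    e ≤ s * P + r * (Q + J) := by
  have hksP : ∀ P : ℕ, k * P = s * P + r * P := fun P => by rw [← hk]; ring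
  rcases Nat.lt_or_ge P Q with h | h
  · have h1 : r * (P + w) ≤ r * (Q + J) := Nat.mul_le_mul_left r (by omega)
    have h2 := hksP P
    have h3 : r * (P + w) = r * P + w * r := by ring
    omega
  · have h1 : s * Q ≤ s * P := Nat.mul_le_mul_left s h
    have h2 := hksP Q
    have h3 : r * (Q + J) = r * Q + J * r := by ring
    omega

end Pool.Agent.H28.NB
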