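import Pool.Agent.H28.NB.TriC

set_option autoImplicit false

namespace Pool.Agent.H28.NB

open Finset

variable {V : Type*} [DecidableEq V]

theorem bp_mem {m : V → V → ℕ} {A : Finset V} {a b : V} (h : bp m A a b ≠ 0) :
    a ∈ A ∧ b ∉ A := by
  unfold bp at h
  by_contra hc
  rw [if_neg hc] at h
  exact h rfl

theorem T3_set (p : Fin 3 → V) (x : Fin 3 → ℕ) (Z : Finset V) :
    ∑ a ∈ Z, ∑ b ∈ Z, T3 p x a b =
      2 * (ind (p 1 ∈ Z) * ind (p 2 ∈ Z) * x 0 + ind (p 2 ∈ Z) * ind (p 0 ∈ Z) * x 1 +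
        ind (p 0 ∈ Z) * ind (p 1 ∈ Z) * x 2) := by
  have hone : ∀ (u v : V) (t : ℕ), ∑ a ∈ Z, ∑ b ∈ Z, (if a = u then (if b = v then t else 0) else 0) =
      ind (u ∈ Z) * ind (v ∈ Z) * t := by
    intro u v t
    have h1 : ∀ a, ∑ b ∈ Z, (if a = u then (if b = v then t else 0) else 0) =
        if a = u then ind (v ∈ Z) * t else 0 := by
      intro a
      by_cases ha : a = u
      · simp only [if_pos ha]
        rw [sum_ite_eq']
        unfold ind
        by_cases hv : v ∈ Z
        · rw [if_pos hv, if_pos hv, one_mul]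
        · rw [if_neg hv, if_neg hv, zero_mul]
      · simp only [if_neg ha]
        exact sum_const_zero
    rw [sum_congr rfl fun a _ => h1 a, sum_ite_eq']
    unfold ind
    by_cases hu : u ∈ Z
    · rw [if_pos hu, if_pos hu, one_mul]
    · rw [if_neg hu, if_neg hu, zero_mul, zero_mul]
  have h2 : ∑ a ∈ Z, ∑ b ∈ Z, T3 p x a b = ∑ i : Fin 3,
      (ind (p (i + 1) ∈ Z) * ind (p (i + 2) ∈ Z) * x i +
        ind (p (i + 2) ∈ Z) * ind (p (i + 1) ∈ Z) * x i) := by
    unfold T3
    rw [sum_congr rfl fun a _ => sum_comm, sum_comm]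
    refine sum_congr rfl fun i _ => ?_
    rw [sum_congr rfl fun a _ => sum_add_distrib, sum_add_distrib, hone, hone]
  rw [h2, Fin.sum_univ_three]
  show ind (p 1 ∈ Z) * ind (p 2 ∈ Z) * x 0 + ind (p 2 ∈ Z) * ind (p 1 ∈ Z) * x 0 +
    (ind (p 2 ∈ Z) * ind (p 0 ∈ Z) * x 1 + ind (p 0 ∈ Z) * ind (p 2 ∈ Z) * x 1) +
    (ind (p 0 ∈ Z) * ind (p 1 ∈ Z) * x 2 + ind (p 1 ∈ Z) * ind (p 0 ∈ Z) * x 2) = _
  ring

/-- decomposition of the multigraph -/
theorem madd {m : V → V → ℕ} {A : Finset V} (hs : ∀ i j, m i j = m j i) (h0 : ∀ i, m i i = 0)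
    (p : Fin 3 → V) (hp : ∀ i, p i ∈ A) (hinj : Function.Injective p)
    (hAA : ∀ a b, a ∈ A → b ∈ A → m a b ≠ 0 → ∃ i j, a = p i ∧ b = p j)
    (hBB : ∀ a b, a ∉ A → b ∉ A → m a b = 0) (a b : V) :
    bp m A a b + bp m A b a + T3 p (fun i => m (p (i + 1)) (p (i + 2))) a b = m a b := by
  have hT0 : ∀ a b : V, b ∉ A → T3 p (fun i => m (p (i + 1)) (p (i + 2))) a b = 0 := by
    intro a b hb
    unfold T3
    refine sum_eq_zero fun i _ => ?_
    have h1 : b ≠ p (i + 2) := by rintro rfl; exact hb (hp _)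
    have h2 : b ≠ p (i + 1) := by rintro rfl; exact hb (hp _)
    rw [if_neg h1, if_neg h2]
    simp
  by_cases ha : a ∈ A
  · by_cases hb : b ∈ A
    · have e1 : bp m A a b = 0 := by unfold bp; rw [if_neg]; exact fun h => h.2 hb
      have e2 : bp m A b a = 0 := by unfold bp; rw [if_neg]; exact fun h => h.2 ha
      rw [e1, e2, zero_add, zero_add]
      by_cases hm : m a b = 0
      · rw [hm]
        unfold T3
        refine sum_eq_zero fun i _ => ?_
        have h1 : (if a = p (i + 1) then (if b = p (i + 2) then m (p (i + 1)) (p (i + 2)) else 0)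
            else 0) = 0 := by
          by_cases c1 : a = p (i + 1)
          · by_cases c2 : b = p (i + 2)
            · rw [if_pos c1, if_pos c2, ← c1, ← c2, hm]
            · rw [if_pos c1, if_neg c2]
          · rw [if_neg c1]
        have h2 : (if a = p (i + 2) then (if b = p (i + 1) then m (p (i + 1)) (p (i + 2)) else 0)
            else 0) = 0 := by
          by_cases c1 : a = p (i + 2)
          · by_cases c2 : b = p (i + 1)
            · rw [if_pos c1, if_pos c2, ← c1, ← c2, hs b a, hm]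
            · rw [if_pos c1, if_neg c2]
          · rw [if_neg c1]
        show (if a = p (i + 1) then (if b = p (i + 2) then m (p (i + 1)) (p (i + 2)) else 0)
            else 0) + (if a = p (i + 2) then (if b = p (i + 1) then m (p (i + 1)) (p (i + 2)) else 0)
            else 0) = 0
        rw [h1, h2]
      · obtain ⟨i, j, rfl, rfl⟩ := hAA a b ha hb hm
        have hij : i ≠ j := by
          rintro rfl
          exact hm (h0 _)
        have hne : ∀ u v : Fin 3, (p u = p v) = (u = v) := fun u v =>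
          propext ⟨fun h => hinj h, fun h => h ▸ rfl⟩
        unfold T3
        rw [Fin.sum_univ_three]
        simp only [hne]
        fin_cases i <;> fin_cases j <;> first
          | exact absurd rfl hij
          | simp [hs (p 2) (p 1), hs (p 0) (p 2), hs (p 1) (p 0)]
    · have e1 : bp m A a b = m a b := by unfold bp; rw [if_pos ⟨ha, hb⟩]
      have e2 : bp m A b a = 0 := by unfold bp; rw [if_neg]; exact fun h => hb h.1
      rw [e1, e2, hT0 a b hb, add_zero, add_zero]
  · by_cases hb : b ∈ A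
    · have e1 : bp m A a b = 0 := by unfold bp; rw [if_neg]; exact fun h => ha h.1
      have e2 : bp m A b a = m b a := by unfold bp; rw [if_pos ⟨hb, ha⟩]
      rw [e1, e2, T3_symm, hT0 b a ha, zero_add, add_zero, hs b a]
    · have e1 : bp m A a b = 0 := by unfold bp; rw [if_neg]; exact fun h => ha h.1
      have e2 : bp m A b a = 0 := by unfold bp; rw [if_neg]; exact fun h => hb h.1
      rw [e1, e2, hT0 a b hb, hBB a b ha hb]

end Pool.Agent.H28.NB
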