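import Pool.Agent.H28.NB.TriD

set_option autoImplicit false

namespace Pool.Agent.H28.NB

open Finset

variable {V : Type*} [DecidableEq V]

/-- the odd set inequality in the triangle case -/
theorem blossomT [Fintype V] {m : V → V → ℕ} {A : Finset V} (hs : ∀ i j, m i j = m j i)
    (h0 : ∀ i, m i i = 0) (p : Fin 3 → V) (hp : ∀ i, p i ∈ A) (hinj : Function.Injective p)
    (hAA : ∀ a b, a ∈ A → b ∈ A → m a b ≠ 0 → ∃ i j, a = p i ∧ b = p j)
    (hBB : ∀ a b, a ∉ A → b ∉ A → m a b = 0) (f : V → ℕ) (k : ℕ)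
    (hX : ∀ X : Finset V, (∑ i ∈ X, ∑ j ∈ X, m i j) ≤ 2 * (k * ((∑ i ∈ X, f i) / 2)))
    (S T : Finset V) :
    ∑ a ∈ S, ∑ b ∈ T, bp m A a b +
      (ind (p 1 ∈ S) * ind (p 2 ∈ S) * m (p 1) (p 2) +
        ind (p 2 ∈ S) * ind (p 0 ∈ S) * m (p 2) (p 0) +
        ind (p 0 ∈ S) * ind (p 1 ∈ S) * m (p 0) (p 1)) ≤
      k * ((∑ a ∈ S, f a + ∑ b ∈ T, f b) / 2) := by
  set W : Finset V := univ.filter (fun i => (i ∈ A ∧ i ∈ S) ∨ (i ∉ A ∧ i ∈ T)) with hW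
  have hmem : ∀ i, i ∈ W ↔ ((i ∈ A ∧ i ∈ S) ∨ (i ∉ A ∧ i ∈ T)) := by
    intro i
    rw [hW, mem_filter]
    exact ⟨fun h => h.2, fun h => ⟨mem_univ _, h⟩⟩
  have h1 : ∑ a ∈ S, ∑ b ∈ T, bp m A a b ≤ ∑ a ∈ W, ∑ b ∈ W, bp m A a b := by
    rw [← sum_product', ← sum_product']
    refine sum_le_sum_of_ne_zero ?_
    rintro ⟨a, b⟩ hab hne
    rw [mem_product] at hab
    obtain ⟨ha, hbn⟩ := bp_mem hne
    rw [mem_product]
    exact ⟨(hmem a).2 (Or.inl ⟨ha, hab.1⟩), (hmem b).2 (Or.inr ⟨hbn, hab.2⟩)⟩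
  have hind : ∀ i, ind (p i ∈ W) = ind (p i ∈ S) := by
    intro i
    unfold ind
    have : p i ∈ W ↔ p i ∈ S := by
      rw [hmem]
      constructor
      · rintro (h | h)
        · exact h.2
        · exact absurd (hp i) h.1
      · intro h
        exact Or.inl ⟨hp i, h⟩
    by_cases h : p i ∈ S
    · rw [if_pos h, if_pos (this.2 h)]
    · rw [if_neg h, if_neg fun h' => h (this.1 h')]
  have h2 : ∑ a ∈ W, ∑ b ∈ W, m a b = 2 * (∑ a ∈ W, ∑ b ∈ W, bp m A a b +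
      (ind (p 1 ∈ S) * ind (p 2 ∈ S) * m (p 1) (p 2) +
        ind (p 2 ∈ S) * ind (p 0 ∈ S) * m (p 2) (p 0) +
        ind (p 0 ∈ S) * ind (p 1 ∈ S) * m (p 0) (p 1))) := by
    have e1 : ∑ a ∈ W, ∑ b ∈ W, m a b =
        ∑ a ∈ W, ∑ b ∈ W, bp m A a b + ∑ a ∈ W, ∑ b ∈ W, bp m A b a +
          ∑ a ∈ W, ∑ b ∈ W, T3 p (fun i => m (p (i + 1)) (p (i + 2))) a b := by
      rw [← sum_add_distrib, ← sum_add_distrib]
      refine sum_congr rfl fun a _ => ?_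
      rw [← sum_add_distrib, ← sum_add_distrib]
      exact sum_congr rfl fun b _ => (madd hs h0 p hp hinj hAA hBB a b).symm
    have e2 : ∑ a ∈ W, ∑ b ∈ W, bp m A b a = ∑ a ∈ W, ∑ b ∈ W, bp m A a b := sum_comm
    rw [e1, e2, T3_set, hind, hind, hind]
    show _ + _ + 2 * (ind (p 1 ∈ S) * ind (p 2 ∈ S) * m (p 1) (p 2) +
        ind (p 2 ∈ S) * ind (p 0 ∈ S) * m (p 2) (p 0) +
        ind (p 0 ∈ S) * ind (p 1 ∈ S) * m (p 0) (p 1)) = _
    ring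
  have h3 : ∑ i ∈ W, f i ≤ ∑ a ∈ S, f a + ∑ b ∈ T, f b := by
    have e1 : ∑ i ∈ W, f i = ∑ i, if i ∈ W then f i else 0 := by
      rw [sum_ite_mem, univ_inter]
    have e2 : ∑ a ∈ S, f a = ∑ i, if i ∈ S then f i else 0 := by
      rw [sum_ite_mem, univ_inter]
    have e3 : ∑ a ∈ T, f a = ∑ i, if i ∈ T then f i else 0 := by
      rw [sum_ite_mem, univ_inter]
    rw [e1, e2, e3, ← sum_add_distrib]
    refine sum_le_sum fun i _ => ?_
    by_cases hiW : i ∈ W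
    · rw [if_pos hiW]
      rcases (hmem i).1 hiW with h4 | h4
      · rw [if_pos h4.2]
        exact Nat.le_add_right _ _
      · rw [if_pos h4.2]
        exact Nat.le_add_left _ _
    · rw [if_neg hiW]
      exact Nat.zero_le _
  have h4 := hX W
  rw [h2] at h4
  have h5 : k * ((∑ i ∈ W, f i) / 2) ≤ k * ((∑ a ∈ S, f a + ∑ b ∈ T, f b) / 2) :=
    Nat.mul_le_mul_left k (Nat.div_le_div_right h3)
  omega

/-- the cut sums of the simulating bipartite multigraph -/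
theorem cut_eq [Fintype V] (M : V → V → ℕ) (p : Fin 3 → V) (x : Fin 3 → ℕ)
    (X : Finset (Option V)) (Y : Finset (V ⊕ Fin 3)) :
    ∑ a ∈ X, ∑ b ∈ Y, tri M p x a b =
      ∑ a ∈ univ.filter (fun a : V => some a ∈ X),
        ∑ b ∈ univ.filter (fun b : V => (Sum.inl b : V ⊕ Fin 3) ∈ Y), M a b +
      (ind ((Sum.inr 0 : V ⊕ Fin 3) ∈ Y) * (ind (p 0 ∈ univ.filter (fun a : V => some a ∈ X)) *
          (x 1 + x 2) + ind (none ∈ X) * x 0) +
        ind ((Sum.inr 1 : V ⊕ Fin 3) ∈ Y) * (ind (p 1 ∈ univ.filter (fun a : V => some a ∈ X)) *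
          (x 2 + x 0) + ind (none ∈ X) * x 1) +
        ind ((Sum.inr 2 : V ⊕ Fin 3) ∈ Y) * (ind (p 2 ∈ univ.filter (fun a : V => some a ∈ X)) *
          (x 0 + x 1) + ind (none ∈ X) * x 2)) := by
  rw [sum_option_mem X]
  simp_rw [sum_sum_mem Y]
  rw [sum_add_distrib, sum_add_distrib, sum_add_distrib, ← mul_sum, ← mul_sum, ← mul_sum]
  have hi : ∀ i : Fin 3, ∑ a ∈ univ.filter (fun a : V => some a ∈ X),
      tri M p x (some a) (Sum.inr i) =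
      ind (p i ∈ univ.filter (fun a : V => some a ∈ X)) * (x (i + 1) + x (i + 2)) := by
    intro i
    show ∑ a ∈ univ.filter (fun a : V => some a ∈ X),
      (if a = p i then x (i + 1) + x (i + 2) else 0) = _
    rw [sum_ite_eq']
    unfold ind
    by_cases h : p i ∈ univ.filter (fun a : V => some a ∈ X)
    · rw [if_pos h, if_pos h, one_mul]
    · rw [if_neg h, if_neg h, zero_mul]
  rw [hi, hi, hi]
  have hn : ∑ b ∈ univ.filter (fun b : V => (Sum.inl b : V ⊕ Fin 3) ∈ Y),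
      tri M p x none (Sum.inl b) = 0 := sum_eq_zero fun b _ => rfl
  rw [hn]
  show ∑ a ∈ univ.filter (fun a : V => some a ∈ X),
        ∑ b ∈ univ.filter (fun b : V => (Sum.inl b : V ⊕ Fin 3) ∈ Y), M a b +
      (ind ((Sum.inr 0 : V ⊕ Fin 3) ∈ Y) * (ind (p 0 ∈ univ.filter (fun a : V => some a ∈ X)) *
          (x 1 + x 2)) +
        ind ((Sum.inr 1 : V ⊕ Fin 3) ∈ Y) * (ind (p 1 ∈ univ.filter (fun a : V => some a ∈ X)) *
          (x 2 + x 0)) +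
        ind ((Sum.inr 2 : V ⊕ Fin 3) ∈ Y) * (ind (p 2 ∈ univ.filter (fun a : V => some a ∈ X)) *
          (x 0 + x 1))) +
      ind (none ∈ X) * (0 + (ind ((Sum.inr 0 : V ⊕ Fin 3) ∈ Y) * x 0 +
        ind ((Sum.inr 1 : V ⊕ Fin 3) ∈ Y) * x 1 + ind ((Sum.inr 2 : V ⊕ Fin 3) ∈ Y) * x 2)) = _
  ring

end Pool.Agent.H28.NB
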